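import Pool.Agent.T6.H46.RC.Fin

/-!
# Finitely generated abelian subgroups are convex cocompact
-/

set_option autoImplicit false

open Metric Set Filter Topology Pointwise
open Pool.Agent.TH60.FP Pool.Agent.TH60.FP.Strip Pool.Agent.Y34.HB Pool.Agent.Y34.EL
open Pool.Agent.T6.H46.RR Pool.Agent.T6.H46.RC Pool.Agent.R632.CZ

namespace Pool.Agent.V7H57.RK

variable {X : Type} [MetricSpace X] {G : Type} [Group G] [MulAction G X]

lemma mid_of_dist (hX : CN X) {p q m : X} (h1 : dist p m ^ 2 ≤ dist p q ^ 2 / 4)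
    (h2 : dist q m ^ 2 ≤ dist p q ^ 2 / 4) : Mid p q m := by
  obtain ⟨m', hm'⟩ := hX p q
  have h3 := hm' m
  rw [dist_comm m p, dist_comm m q] at h3
  have h4 : dist m m' ^ 2 = 0 := le_antisymm (by linarith) (sq_nonneg _)
  rw [dist_eq_zero.1 (pow_eq_zero_iff two_ne_zero |>.1 h4)]
  exact hm'

/-- the line in the middle of two parallel lines -/
lemma mid_line (hX : CN X) {a b : ℝ → X} (ha : Isometry a) (hb : Isometry b) (h : Par a b) :
    ∃ (p : ℝ → X) (o : ℝ), Isometry p ∧ ∀ s t, Mid (a s) (b t) (p ((s + t - o) / 2)) := by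
  obtain ⟨o, ho⟩ := t_strip X hX a b ha hb h
  obtain ⟨p, hp, hap, hpm⟩ := t_mid t_strip X hX a (fun t => b (t + o)) ha (shift_iso hb o) ho
  have hbp : Sy (fun t => b (t + o)) p :=
    t_trans t_strip X hX a _ p ha (shift_iso hb o) hp ho hap
  have e0 := hpm (a 0)
  have e1 := hpm (b (0 + o))
  rw [dist_self] at e0 e1
  refine ⟨p, o, hp, fun s t => mid_of_dist hX ?_ ?_⟩
  · have d1 := hap s ((s + t - o) / 2)
    have d3 := ho s (t - o)
    simp only [sub_add_cancel] at d3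
    rw [d1, d3]
    nlinarith
  · have d2 := hbp (t - o) ((s + t - o) / 2)
    have d3 := ho s (t - o)
    simp only [sub_add_cancel] at d2 d3
    rw [dist_comm (b (0 + o)) (a 0)] at e1
    rw [d2, d3]
    nlinarith

lemma mid_smul [IsIsometricSMul G X] {p q m : X} (h : Mid p q m) (g : G) :
    Mid (g • p) (g • q) (g • m) := by
  intro x
  have h1 := h (g⁻¹ • x)
  have e : ∀ y : X, dist (g⁻¹ • x) y = dist x (g • y) := by
    intro y
    rw [← dist_smul g (g⁻¹ • x) y, smul_inv_smul]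
  rw [e, e, e] at h1
  rw [dist_smul]
  exact h1

lemma mid_axis' [IsIsometricSMul G X] (hX : CN X) {g : G} {τ : ℝ} (hτ : 0 < τ) {a b : ℝ → X}
    (ha : Axis g τ a) (hb : Axis g τ b) :
    ∃ (p : ℝ → X) (o : ℝ), Axis g τ p ∧ ∀ s t, Mid (a s) (b t) (p ((s + t - o) / 2)) := by
  obtain ⟨p, o, hp, hm⟩ := mid_line hX ha.1 hb.1 (Axis.par hτ ha hb)
  refine ⟨p, o, ⟨hp, fun w => ?_⟩, hm⟩
  have h1 := mid_smul (hm w (w + o)) g
  have h2 := hm (w + τ) (w + o + τ)
  rw [ha.2, hb.2] at h1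
  have e1 : (w + (w + o) - o) / 2 = w := by ring
  have e2 : (w + τ + (w + o + τ) - o) / 2 = w + τ := by ring
  rw [e1] at h1
  rw [e2] at h2
  exact h1.uniq h2

/-- closed midpoint convex sets are convex -/
lemma conv_of_mid (hX : CN X) [ProperSpace X] {S : Set X} (hcl : IsClosed S)
    (hmid : ∀ x ∈ S, ∀ y ∈ S, ∀ m, Mid x y m → m ∈ S) :
    ∀ p ∈ S, ∀ q ∈ S, ∀ m, dist p m + dist m q = dist p q → m ∈ S := by
  intro p hp q hq m hm
  set d := dist p q with hd
  have hd0 : 0 ≤ d := dist_nonneg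
  have hex : ∀ t : ℝ, ∃ y, 0 ≤ t → t ≤ d → On p q t y := by
    intro t
    by_cases h : 0 ≤ t ∧ t ≤ d
    · obtain ⟨y, hy⟩ := ex_on hX h.1 h.2
      exact ⟨y, fun _ _ => hy⟩
    · exact ⟨p, fun h1 h2 => absurd ⟨h1, h2⟩ h⟩
  choose σ hσ using hex
  have hdist : ∀ s t : ℝ, 0 ≤ s → s ≤ t → t ≤ d → dist (σ s) (σ t) = t - s := fun s t h0 h1 h2 =>
    on_dist hX h0 h1 (hσ s h0 (h1.trans h2)) (hσ t (h0.trans h1) h2)
  have hcont : ContinuousOn σ (Icc 0 d) := by
    refine (LipschitzOnWith.of_dist_le_mul (K := 1) fun s hs t ht => ?_).continuousOn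
    rw [NNReal.coe_one, one_mul, Real.dist_eq]
    rcases le_total s t with h | h
    · rw [hdist s t hs.1 h ht.2, abs_of_nonpos (by linarith)]; linarith
    · rw [dist_comm, hdist t s ht.1 h hs.2, abs_of_nonneg (by linarith)]
  have hT : IsClosed (Icc 0 d ∩ σ ⁻¹' S) := hcont.preimage_isClosed_of_isClosed isClosed_Icc hcl
  set t := dist p m with ht
  have ht0 : 0 ≤ t := dist_nonneg
  have htd : t ≤ d := by have := dist_nonneg (x := m) (y := q); linarith
  have hmt : m = σ t := on_uniq hX ⟨rfl, by linarith⟩ (hσ t ht0 htd)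
  have h0 : σ 0 = p := (dist_eq_zero.1 (hσ 0 le_rfl hd0).1).symm
  have h1 : σ d = q := by
    have := (hσ d hd0 le_rfl).2
    rw [← hd, sub_self] at this
    exact dist_eq_zero.1 this
  have hα : sSup ((Icc 0 d ∩ σ ⁻¹' S) ∩ Iic t) ∈ (Icc 0 d ∩ σ ⁻¹' S) ∩ Iic t :=
    (hT.inter isClosed_Iic).csSup_mem
      ⟨0, ⟨⟨le_rfl, hd0⟩, by show σ 0 ∈ S; rw [h0]; exact hp⟩, ht0⟩ ⟨t, fun x hx => hx.2⟩
  have hβ : sInf ((Icc 0 d ∩ σ ⁻¹' S) ∩ Ici t) ∈ (Icc 0 d ∩ σ ⁻¹' S) ∩ Ici t :=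
    (hT.inter isClosed_Ici).csInf_mem
      ⟨d, ⟨⟨hd0, le_rfl⟩, by show σ d ∈ S; rw [h1]; exact hq⟩, htd⟩ ⟨t, fun x hx => hx.2⟩
  obtain ⟨α, hαe⟩ : ∃ α, α = sSup ((Icc 0 d ∩ σ ⁻¹' S) ∩ Iic t) := ⟨_, rfl⟩
  obtain ⟨β, hβe⟩ : ∃ β, β = sInf ((Icc 0 d ∩ σ ⁻¹' S) ∩ Ici t) := ⟨_, rfl⟩
  rw [← hαe] at hα
  rw [← hβe] at hβ
  obtain ⟨⟨⟨a1, a2⟩, a3⟩, a4⟩ := hα
  obtain ⟨⟨⟨b1, b2⟩, b3⟩, b4⟩ := hβ
  have a4' : α ≤ t := a4
  have b4' : t ≤ β := b4
  have hu : (α + β) / 2 ∈ Icc 0 d ∩ σ ⁻¹' S := by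
    refine ⟨⟨by linarith, by linarith⟩, ?_⟩
    refine hmid _ a3 _ b3 _ (mid_of_dist hX ?_ ?_)
    · rw [hdist α ((α + β) / 2) a1 (by linarith) (by linarith),
        hdist α β a1 (by linarith) b2]
      nlinarith
    · rw [dist_comm (σ β), hdist ((α + β) / 2) β (by linarith) (by linarith) b2,
        hdist α β a1 (by linarith) b2]
      nlinarith
  rw [hmt]
  rcases le_total ((α + β) / 2) t with h | h
  · have h2 : (α + β) / 2 ≤ α := by
      rw [hαe]
      rw [hαe] at hu h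
      exact le_csSup ⟨t, fun x hx => hx.2⟩ ⟨hu, h⟩
    have h3 : t = α := by linarith
    rw [h3]; exact a3
  · have h2 : β ≤ (α + β) / 2 := by
      rw [hβe]
      rw [hβe] at hu h
      exact csInf_le ⟨t, fun x hx => hx.2⟩ ⟨hu, h⟩
    have h3 : t = β := by linarith
    rw [h3]; exact b3

/-- the union of the translates of a compact set is closed -/
lemma closed_orbit (hG : Geo X G) (A : Subgroup G) {Q : Set X} (hQ : IsCompact Q) :
    IsClosed {x | ∃ g ∈ A, g • x ∈ Q} := by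
  have := hG.isom
  have := hG.proper
  refine isClosed_of_closure_subset fun x hx => ?_
  obtain ⟨R, hR⟩ := hQ.isBounded.subset_closedBall x
  have hF := finite_short hG x (R + 1)
  set U : Set X := ⋃ g ∈ ({s : G | dist x (s • x) ≤ R + 1} ∩ (A : Set G)), (fun y => g • y) ⁻¹' Q
    with hU
  have hUc : IsClosed U := by
    refine (hF.subset inter_subset_left).isClosed_biUnion fun g _ => ?_
    exact hQ.isClosed.preimage (isometry_smul X g).continuous
  have h1 : ball x 1 ∩ {x | ∃ g ∈ A, g • x ∈ Q} ⊆ U := by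
    rintro y ⟨hy, g, hg, hgy⟩
    rw [hU, mem_iUnion₂]
    refine ⟨g, ⟨?_, hg⟩, hgy⟩
    show dist x (g • x) ≤ R + 1
    have e1 := dist_triangle x (g • y) (g • x)
    rw [dist_smul] at e1
    have e2 := mem_closedBall.1 (hR hgy)
    rw [dist_comm] at e2
    have e3 := mem_ball.1 hy
    linarith
  have h2 : x ∈ closure (ball x 1 ∩ {x | ∃ g ∈ A, g • x ∈ Q}) :=
    isOpen_ball.inter_closure ⟨mem_ball_self one_pos, hx⟩
  have h3 := closure_minimal h1 hUc h2
  rw [hU, mem_iUnion₂] at h3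
  obtain ⟨g, ⟨-, hg⟩, hgx⟩ := h3
  exact ⟨g, hg, hgx⟩

omit [MetricSpace X] in
lemma inv_sup {A₁ : Subgroup G} {B : Set X} (h1 : ∀ g ∈ A₁, ∀ x ∈ B, g • x ∈ B) {b : G}
    (h2 : ∀ x ∈ B, b • x ∈ B) (h3 : ∀ x ∈ B, b⁻¹ • x ∈ B) :
    ∀ g ∈ A₁ ⊔ Subgroup.zpowers b, ∀ x ∈ B, g • x ∈ B := by
  have hle : A₁ ⊔ Subgroup.zpowers b ≤ MulAction.stabilizer G B := by
    rw [sup_le_iff, Subgroup.zpowers_le]
    constructor
    · intro g hg
      rw [MulAction.mem_stabilizer_set]
      intro x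
      refine ⟨fun h => ?_, fun h => h1 g hg x h⟩
      have := h1 g⁻¹ (A₁.inv_mem hg) _ h
      rwa [inv_smul_smul] at this
    · rw [MulAction.mem_stabilizer_set]
      intro x
      refine ⟨fun h => ?_, fun h => h2 x h⟩
      have := h3 _ h
      rwa [inv_smul_smul] at this
  intro g hg x hx
  exact (MulAction.mem_stabilizer_set.1 (hle hg) x).2 hx

theorem torus_step (hG : Geo X G) {A₁ A : Subgroup G} (hA : A₁ ≤ A)
    (hcomm : ∀ a ∈ A, ∀ b ∈ A, a * b = b * a) {B : Set X} (hB : CC A₁ B)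
    (hmin : ∀ x ∈ B, ∀ a ∈ A, IsMin a x) {b : G} (hb : b ∈ A) :
    ∃ B' : Set X, CC (A₁ ⊔ Subgroup.zpowers b) B' ∧ ∀ x ∈ B', ∀ a ∈ A, IsMin a x := by
  have := hG.isom
  have := hG.proper
  obtain ⟨y, hy⟩ := hB.ne
  set τ := dist y (b • y) with hτd
  have hτ : ∀ x ∈ B, dist x (b • x) = τ := fun x hx =>
    le_antisymm (hmin x hx b hb y) (hmin y hy b hb x)
  obtain ⟨C, hC, hcov⟩ := hB.cc
  rcases eq_or_lt_of_le (dist_nonneg (x := y) (y := b • y)) with h0 | h0
  · have hfix : ∀ x ∈ B, b • x = x := by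
      intro x hx
      have h1 := hτ x hx
      rw [hτd, ← h0] at h1
      exact (dist_eq_zero.1 h1).symm
    refine ⟨B, ⟨hB.ne, hB.closed, hB.conv, ?_, C, hC, fun x hx => ?_⟩, hmin⟩
    · refine inv_sup hB.inv (fun x hx => ?_) (fun x hx => ?_)
      · rw [hfix x hx]; exact hx
      · rw [inv_smul_eq_iff.2 (hfix x hx).symm]; exact hx
    · obtain ⟨g, hg, hgx⟩ := hcov x hx
      exact ⟨g, le_sup_left (a := A₁) hg, hgx⟩
  · have hτ0 : 0 < τ := h0
    have hax : ∀ x : X, ∃ c : ℝ → X, x ∈ B → Axis b τ c ∧ c 0 = x := by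
      intro x
      by_cases hx : x ∈ B
      · obtain ⟨c, hc⟩ := axis_through hG.cn (hmin x hx b hb) (by rw [hτ x hx]; exact hτ0)
        rw [hτ x hx] at hc
        exact ⟨c, fun _ => hc⟩
      · exact ⟨fun _ => x, fun h => absurd h hx⟩
    choose ax hax using hax
    have huniq : ∀ c : ℝ → X, Axis b τ c → c 0 ∈ B → ∀ t, c t = ax (c 0) t := by
      intro c hc hc0 t
      obtain ⟨h1, h2⟩ := hax _ hc0
      have h3 := par_const hG.cn hc.1 h1.1 (Axis.par hτ0 hc h1) t
      rw [h2, dist_self] at h3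
      exact dist_eq_zero.1 h3
    set B' : Set X := {x | ∃ c : ℝ → X, Axis b τ c ∧ c 0 ∈ B ∧ ∃ t, c t = x} with hB'
    set Q : Set X := (fun z : X × ℝ => ax z.1 z.2) '' ((B ∩ C) ×ˢ Icc 0 τ) with hQd
    have hQ : IsCompact Q := by
      refine ((hC.inter_left hB.closed).prod isCompact_Icc).image_of_continuousOn ?_
      refine (LipschitzOnWith.of_dist_le_mul (K := 2) fun z hz w hw => ?_).continuousOn
      obtain ⟨z1, z2⟩ := hax z.1 hz.1.1
      obtain ⟨w1, w2⟩ := hax w.1 hw.1.1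
      have e1 := dist_triangle (ax z.1 z.2) (ax z.1 w.2) (ax w.1 w.2)
      have e2 := par_const hG.cn z1.1 w1.1 (Axis.par hτ0 z1 w1) w.2
      rw [z2, w2] at e2
      rw [z1.1.dist_eq, e2] at e1
      have e3 : dist z.1 w.1 ≤ dist z w := le_max_left _ _
      have e4 : dist z.2 w.2 ≤ dist z w := le_max_right _ _
      show dist (ax z.1 z.2) (ax w.1 w.2) ≤ _
      have e5 : ((2 : NNReal) : ℝ) = 2 := rfl
      rw [e5]
      linarith
    have hmove : ∀ a ∈ A₁, ∀ c : ℝ → X, Axis b τ c → c 0 ∈ B →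
        Axis b τ (fun t => a • c t) ∧ a • c 0 ∈ B := by
      intro a ha c hc hc0
      exact ⟨Axis.move hc (hcomm b hb a (hA ha)), hB.inv a ha _ hc0⟩
    have hbB' : ∀ x ∈ B', b • x ∈ B' := by
      rintro x ⟨c, hc, hc0, t, rfl⟩
      exact ⟨c, hc, hc0, t + τ, (hc.2 t).symm⟩
    have hbB'' : ∀ x ∈ B', b⁻¹ • x ∈ B' := by
      rintro x ⟨c, hc, hc0, t, rfl⟩
      refine ⟨c, hc, hc0, t - τ, ?_⟩
      rw [eq_inv_smul_iff, hc.2, sub_add_cancel]
    have hinv : ∀ g ∈ A₁ ⊔ Subgroup.zpowers b, ∀ x ∈ B', g • x ∈ B' := by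
      refine inv_sup ?_ hbB' hbB''
      rintro a ha x ⟨c, hc, hc0, t, rfl⟩
      obtain ⟨h1, h2⟩ := hmove a ha c hc hc0
      exact ⟨_, h1, h2, t, rfl⟩
    have hQB : Q ⊆ B' := by
      rintro x ⟨z, hz, rfl⟩
      obtain ⟨h1, h2⟩ := hax z.1 hz.1.1
      exact ⟨ax z.1, h1, by rw [h2]; exact hz.1.1, z.2, rfl⟩
    have hcov' : ∀ x ∈ B', ∃ g ∈ A₁ ⊔ Subgroup.zpowers b, g • x ∈ Q := by
      rintro x ⟨c, hc, hc0, t, rfl⟩
      obtain ⟨a, ha, hac⟩ := hcov _ hc0
      obtain ⟨h1, h2⟩ := hmove a ha c hc hc0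
      obtain ⟨m, hm⟩ : ∃ m : ℤ, m = ⌊t / τ⌋ := ⟨_, rfl⟩
      have e1 : (m : ℝ) * τ ≤ t := by
        rw [hm, ← le_div_iff₀ hτ0]
        exact Int.floor_le _
      have e2 : t ≤ (m + 1) * τ := by
        rw [hm, ← div_le_iff₀ hτ0]
        exact (Int.lt_floor_add_one _).le
      refine ⟨b ^ (-m) * a, Subgroup.mul_mem _ (le_sup_right (a := A₁)
        (Subgroup.zpow_mem_zpowers b _)) (le_sup_left (a := A₁) ha), ?_⟩
      have e3 : (b ^ (-m) * a) • c t = ax (a • c 0) (t - m * τ) := by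
        rw [mul_smul]
        have e4 := axis_zpow h1 (-m) t
        rw [e4]
        have e5 := huniq _ h1 h2 (t + ((-m : ℤ) : ℝ) * τ)
        rw [e5]
        congr 1
        push_cast; ring
      rw [e3]
      exact ⟨(a • c 0, t - m * τ), ⟨⟨h2, hac⟩, by linarith, by linarith⟩, rfl⟩
    have hB'c : IsClosed B' := by
      have e : B' = {x | ∃ g ∈ A₁ ⊔ Subgroup.zpowers b, g • x ∈ Q} := by
        ext x
        refine ⟨fun h => hcov' x h, ?_⟩
        rintro ⟨g, hg, hgx⟩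
        have := hinv g⁻¹ (Subgroup.inv_mem _ hg) _ (hQB hgx)
        rwa [inv_smul_smul] at this
      rw [e]
      exact closed_orbit hG _ hQ
    refine ⟨B', ⟨⟨y, ?_⟩, hB'c, ?_, hinv, Q, hQ, hcov'⟩, ?_⟩
    · obtain ⟨h1, h2⟩ := hax y hy
      exact ⟨ax y, h1, by rw [h2]; exact hy, 0, h2⟩
    · refine conv_of_mid hG.cn hB'c ?_
      rintro _ ⟨c, hc, hc0, s, rfl⟩ _ ⟨c', hc', hc0', t, rfl⟩ m hm
      obtain ⟨p, o, hp, hpm⟩ := mid_axis' hG.cn hτ0 hc hc'
      have h1 := hpm 0 0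
      have h2 : p ((0 + 0 - o) / 2) ∈ B := by
        obtain ⟨q1, q2⟩ : dist (c 0) (p ((0 + 0 - o) / 2)) ≤ dist (c 0) (c' 0) / 2 ∧
            dist (p ((0 + 0 - o) / 2)) (c' 0) ≤ dist (c 0) (c' 0) / 2 := by
          have l1 := h1.left
          have l2 := h1.symm.left
          rw [dist_comm (c' 0) (c 0)] at l2
          constructor
          · refine (pow_le_pow_iff_left₀ dist_nonneg (by positivity) two_ne_zero).1 ?_
            linarith
          · rw [dist_comm]
            refine (pow_le_pow_iff_left₀ dist_nonneg (by positivity) two_ne_zero).1 ?_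
            linarith
        refine hB.conv _ hc0 _ hc0' _ ?_
        have := dist_triangle (c 0) (p ((0 + 0 - o) / 2)) (c' 0)
        linarith
      have h3 := hpm s t
      rw [hm.uniq h3]
      refine ⟨fun u => p (u + (0 + 0 - o) / 2), Axis.shift hp _, ?_, (s + t) / 2, ?_⟩
      · show p (0 + (0 + 0 - o) / 2) ∈ B
        rw [zero_add]; exact h2
      · show p ((s + t) / 2 + (0 + 0 - o) / 2) = p ((s + t - o) / 2)
        congr 1; ring
    · rintro _ ⟨c, hc, hc0, t, rfl⟩ a ha z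
      have h1 : Axis b τ (fun t => a • c t) := Axis.move hc (hcomm b hb a ha)
      have h2 := par_const hG.cn hc.1 h1.1 (Axis.par hτ0 hc h1) t
      rw [h2]
      exact hmin _ hc0 a ha z

/-- **Flat torus theorem.**  Finitely generated abelian subgroups are convex cocompact. -/
theorem cc_abelian (hG : Geo X G) (A : Subgroup G) (hfg : A.FG)
    (hcomm : ∀ a ∈ A, ∀ b ∈ A, a * b = b * a) (x : X) : ∃ B : Set X, CC A B := by
  classical
  have := hG.isom
  obtain ⟨y, hy⟩ := exists_torus_point hG A hfg hcomm x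
  obtain ⟨F, hF⟩ := hfg
  have key : ∀ S : Finset G, (∀ a ∈ S, a ∈ A) →
      ∃ B : Set X, CC (Subgroup.closure (S : Set G)) B ∧ ∀ x ∈ B, ∀ a ∈ A, IsMin a x := by
    intro S
    induction S using Finset.induction_on with
    | empty =>
      intro _
      refine ⟨{y}, ⟨⟨y, rfl⟩, isClosed_singleton, ?_, ?_, {y}, isCompact_singleton, ?_⟩, ?_⟩
      · rintro p rfl q hq m hm
        rw [mem_singleton_iff] at hq
        subst hq
        rw [dist_self] at hm
        have e1 := dist_nonneg (x := q) (y := m)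
        have e2 := dist_nonneg (x := m) (y := q)
        have e3 : dist q m = 0 := by linarith
        exact (dist_eq_zero.1 e3).symm
      · intro g hg z hz
        rw [Finset.coe_empty, Subgroup.closure_empty, Subgroup.mem_bot] at hg
        rw [hg, one_smul]; exact hz
      · intro z hz
        exact ⟨1, Subgroup.one_mem _, by rw [one_smul]; exact hz⟩
      · rintro z rfl
        exact hy
    | insert b S _ ih =>
      intro hS
      obtain ⟨B, hB, hmin⟩ := ih fun a ha => hS a (Finset.mem_insert_of_mem ha)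
      obtain ⟨B', hB', hmin'⟩ := torus_step hG
        ((Subgroup.closure_le A).2 fun a ha => hS a (Finset.mem_insert_of_mem ha)) hcomm hB hmin
        (hS b (Finset.mem_insert_self b S))
      refine ⟨B', ?_, hmin'⟩
      have e : Subgroup.closure ((insert b S : Finset G) : Set G) =
          Subgroup.closure (S : Set G) ⊔ Subgroup.zpowers b := by
        rw [Finset.coe_insert, Set.insert_eq, Subgroup.closure_union, sup_comm,
          Subgroup.zpowers_eq_closure]
      rw [e]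
      exact hB'
  obtain ⟨B, hB, -⟩ := key F fun a ha => hF ▸ Subgroup.subset_closure ha
  rw [hF] at hB
  exact ⟨B, hB⟩

/-- finite extensions of convex cocompact subgroups -/
theorem cc_fin (hG : Geo X G) {A' A : Subgroup G} (hle : A' ≤ A) (hfin : A'.relIndex A ≠ 0)
    {B : Set X} (hB : CC A' B) : ∃ B₁ : Set X, CC A B₁ := by
  classical
  have := hG.isom
  have := hG.proper
  have hfi : (A'.subgroupOf A).FiniteIndex := ⟨hfin⟩
  have : Finite (A ⧸ A'.subgroupOf A) := Subgroup.finite_quotient_of_finiteIndex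
  have : Fintype (A ⧸ A'.subgroupOf A) := Fintype.ofFinite _
  obtain ⟨y, hy⟩ := hB.ne
  set φ : X → ℝ := fun x => ∑ q : A ⧸ A'.subgroupOf A, ph B ((q.out : A) : G) x with hφ
  -- invariance
  have hcoset : ∀ (a b : A), (a : A ⧸ A'.subgroupOf A) = b → ∀ x, ph B (a : G) x = ph B (b : G) x := by
    intro a b hab x
    rw [QuotientGroup.eq] at hab
    have h1 : ((a⁻¹ * b : A) : G) ∈ A' := Subgroup.mem_subgroupOf.1 hab
    unfold ph
    rw [← infDist_inv hB h1 ((b : G)⁻¹ • x), smul_smul]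
    congr 2
    rw [Subgroup.coe_mul, Subgroup.coe_inv]
    group
  have hinv : ∀ a ∈ A, ∀ x, φ (a • x) = φ x := by
    intro a ha x
    show ∑ q : A ⧸ A'.subgroupOf A, ph B ((q.out : A) : G) (a • x) =
      ∑ q : A ⧸ A'.subgroupOf A, ph B ((q.out : A) : G) x
    have e1 : ∀ q : A ⧸ A'.subgroupOf A, ph B ((q.out : A) : G) (a • x) =
        ph B ((((⟨a, ha⟩ : A)⁻¹ • q).out : A) : G) x := by
      intro q
      have e2 : ((((⟨a, ha⟩ : A)⁻¹ • q).out : A) : A ⧸ A'.subgroupOf A) =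
          (((⟨a, ha⟩ : A)⁻¹ * q.out : A) : A ⧸ A'.subgroupOf A) := by
        rw [QuotientGroup.out_eq']
        conv_lhs => rw [← QuotientGroup.out_eq' q]
        rfl
      rw [hcoset _ _ e2]
      unfold ph
      rw [smul_smul, Subgroup.coe_mul, Subgroup.coe_inv]
      congr 2
      show ((q.out : A) : G)⁻¹ * a = (a⁻¹ * ((q.out : A) : G))⁻¹
      group
    rw [Finset.sum_congr rfl fun q _ => e1 q]
    exact Fintype.sum_equiv (MulAction.toPerm ((⟨a, ha⟩ : A)⁻¹)) _ _ fun q => rfl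
  have hcont : Continuous φ := by
    refine continuous_finsetSum _ fun q _ => ?_
    have hlip : LipschitzWith 1 (ph B ((q.out : A) : G)) := LipschitzWith.of_dist_le_mul
      fun x y => by rw [Real.dist_eq, NNReal.coe_one, one_mul]; exact ph_lip B _ x y
    exact hlip.continuous
  refine ⟨{x | φ x ≤ φ y}, ⟨y, le_refl (φ y)⟩, isClosed_le hcont continuous_const, ?_, ?_, ?_⟩
  · intro p hp q hq m hm
    have h1 : dist p q * φ m ≤ dist m q * φ p + dist p m * φ q := by
      show dist p q * ∑ i : A ⧸ A'.subgroupOf A, ph B ((i.out : A) : G) m ≤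
        dist m q * ∑ i : A ⧸ A'.subgroupOf A, ph B ((i.out : A) : G) p +
        dist p m * ∑ i : A ⧸ A'.subgroupOf A, ph B ((i.out : A) : G) q
      rw [Finset.mul_sum, Finset.mul_sum, Finset.mul_sum, ← Finset.sum_add_distrib]
      exact Finset.sum_le_sum fun i _ => ph_convex hG.cn hB _ p q m hm
    rcases eq_or_lt_of_le (dist_nonneg (x := p) (y := q)) with h0 | h0
    · have e1 := dist_nonneg (x := p) (y := m)
      have e2 := dist_nonneg (x := m) (y := q)
      have h3 : dist p m = 0 := by linarith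
      rw [← dist_eq_zero.1 h3]
      exact hp
    · have h2 : dist m q * φ p + dist p m * φ q ≤ dist p q * φ y := by
        have e1 := mul_le_mul_of_nonneg_left (show φ p ≤ φ y from hp)
          (dist_nonneg (x := m) (y := q))
        have e2 := mul_le_mul_of_nonneg_left (show φ q ≤ φ y from hq)
          (dist_nonneg (x := p) (y := m))
        rw [← hm, add_mul]
        linarith
      exact le_of_mul_le_mul_left (h1.trans h2) h0
  · intro g hg x hx
    show φ (g • x) ≤ φ y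
    rw [hinv g hg]
    exact hx
  · obtain ⟨C, hC, hcov⟩ := hB.cc
    refine ⟨cthickening (φ y) C, hC.cthickening, fun x hx => ?_⟩
    have h1 : infDist x B ≤ φ y := by
      refine le_trans ?_ hx
      have e1 : ph B (((((1 : A) : A ⧸ A'.subgroupOf A)).out : A) : G) x = ph B ((1 : A) : G) x :=
        hcoset _ _ (QuotientGroup.out_eq' _) x
      have e2 : ph B ((1 : A) : G) x = infDist x B := by
        unfold ph; simp
      rw [← e2, ← e1]
      exact Finset.single_le_sum (f := fun q : A ⧸ A'.subgroupOf A => ph B ((q.out : A) : G) x)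
        (fun q _ => infDist_nonneg) (Finset.mem_univ _)
    obtain ⟨z, hz, hz'⟩ := hB.closed.exists_infDist_eq_dist hB.ne x
    obtain ⟨g, hg, hgz⟩ := hcov z hz
    refine ⟨g, hle hg, mem_cthickening_of_dist_le (g • x) (g • z) _ _ hgz ?_⟩
    rw [dist_smul, ← hz']
    exact h1

end Pool.Agent.V7H57.RK
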