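import Pool.Agent.V7H57.RK.Chain
import Pool.Agent.V7H57.RK.Torus

/-!
# Virtually abelian stabilisers
-/

set_option autoImplicit false

open Metric Set Filter Topology
open Pool.Agent.TH60.FP Pool.Agent.TH60.FP.Strip Pool.Agent.Y34.HB Pool.Agent.Y34.EL
open Pool.Agent.T6.H46.RR Pool.Agent.T6.H67.TA Pool.Agent.T6.H46.RC

namespace Pool.Agent.V7H57.RK

lemma chain_mod {M : Type} [AddCommGroup M] [Module.Finite ℤ M] (N : ℕ → AddSubgroup M)
    (hN : ∀ n, N (n + 1) ≤ N n) : ∃ n, (N (n + 1)).relIndex (N n) ≠ 0 := by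
  set r : ℕ → ℕ := fun n => Module.finrank ℤ (AddSubgroup.toIntSubmodule (N n)) with hr
  have hle : ∀ n, AddSubgroup.toIntSubmodule (N (n + 1)) ≤ AddSubgroup.toIntSubmodule (N n) :=
    fun n => (AddSubgroup.toIntSubmodule (M := M)).monotone (hN n)
  have hmono : ∀ n, r (n + 1) ≤ r n := fun n => Submodule.finrank_mono (hle n)
  obtain ⟨n, hn⟩ : ∃ n, r (n + 1) = r n := by
    by_contra hcon
    push Not at hcon
    have : ∀ n, r n + n ≤ r 0 := by
      intro n
      induction n with
      | zero => simp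
      | succ n ih =>
        have := hmono n
        have := hcon n
        omega
    have := this (r 0 + 1)
    omega
  refine ⟨n, ?_⟩
  set P := AddSubgroup.toIntSubmodule (N n) with hP
  set P' : Submodule ℤ P := (AddSubgroup.toIntSubmodule (N (n + 1))).submoduleOf P with hP'
  have h1 := Submodule.finrank_quotient_add_finrank P'
  have h2 := (Submodule.submoduleOfEquivOfLe (hle n)).finrank_eq
  have h3 : Module.finrank ℤ (P ⧸ P') = 0 := by
    have h4 : Module.finrank ℤ P' = r (n + 1) := h2
    have h5 : Module.finrank ℤ P = r n := rfl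
    omega
  have h6 : Module.IsTorsion ℤ (P ⧸ P') := Module.finrank_eq_zero_iff_isTorsion.1 h3
  have h7 : Finite (P ⧸ P') := Module.finite_of_fg_torsion _ h6
  have h7' : Finite (P ⧸ P'.toAddSubgroup) := h7
  have h8 : (P'.toAddSubgroup).index ≠ 0 := AddSubgroup.index_ne_zero_of_finite
  exact h8

variable {G : Type} [Group G]

/-- descending chains of subgroups of a finitely generated virtually abelian group -/
lemma chain_ab {A' A : Subgroup G} (hfin : A'.relIndex A ≠ 0) (hfg : A'.FG)
    (hcomm : ∀ a ∈ A', ∀ b ∈ A', a * b = b * a) (K : ℕ → Subgroup G) (h0 : K 0 ≤ A)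
    (hK : ∀ n, K (n + 1) ≤ K n) : ∃ n, (K (n + 1)).relIndex (K n) ≠ 0 := by
  let _ : CommGroup A' := { (inferInstance : Group A') with
    mul_comm := fun a b => Subtype.ext (hcomm a a.2 b b.2) }
  have hfg' : Group.FG A' := (Group.fg_iff_subgroup_fg A').2 hfg
  have : AddGroup.FG (Additive A') := inferInstance
  have : Module.Finite ℤ (Additive A') := Module.Finite.iff_addGroup_fg.2 inferInstance
  obtain ⟨n, hn⟩ := chain_mod (M := Additive A')
    (fun n => Subgroup.toAddSubgroup ((K n).subgroupOf A')) (fun n => by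
      refine (Subgroup.toAddSubgroup (G := A')).monotone ?_
      exact Subgroup.comap_mono (hK n))
  have hle : ∀ n, K n ≤ A := by
    intro n
    induction n with
    | zero => exact h0
    | succ n ih => exact (hK n).trans ih
  refine ⟨n, ?_⟩
  have h1 : ((K (n + 1)).subgroupOf A').relIndex ((K n).subgroupOf A') ≠ 0 := hn
  rw [← Subgroup.relIndex_map_map_of_injective _ _ A'.subtype_injective,
    Subgroup.subgroupOf_map_subtype, Subgroup.subgroupOf_map_subtype] at h1
  have h2 : A'.relIndex (K n) ≠ 0 := fun h => hfin (by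
    exact Subgroup.relIndex_eq_zero_of_le_right (hle n) h)
  have h3 : (K n ⊓ A').relIndex (K n) ≠ 0 := by
    rwa [inf_comm, Subgroup.inf_relIndex_right]
  have h4 := Subgroup.relIndex_ne_zero_trans h1 h3
  exact fun h => h4 (Subgroup.relIndex_eq_zero_of_le_left inf_le_left h)

variable {X : Type} [MetricSpace X] [MulAction G X]
variable {V : Type} {T : SimpleGraph V} (hT : T.IsTree) [MulAction G V]
  (hact : ∀ (g : G) (u v : V), T.Adj u v → T.Adj (g • u) (g • v))

include hT hact in
/-- **Virtually abelian stabilisers.** -/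
theorem abelian (hG : Geo X G) (hGC : GC X) (o : X) {u v : V} (huv : u ≠ v) {A' : Subgroup G}
    (hle : A' ≤ St G u v) (hfin : A'.relIndex (St G u v) ≠ 0) (hfg : A'.FG)
    (hcomm : ∀ a ∈ A', ∀ b ∈ A', a * b = b * a) {p q : G} (hp : Fc T u v p)
    (hq : Fc T v u q) : (∃ g : G, RankOne X g) ∨
      ∃ (B : Set X) (h : G), Sh T u v h ∧ Splits B (St G u (h • v)) := by
  obtain ⟨B', hB'⟩ := cc_abelian hG A' hfg hcomm o
  obtain ⟨B, hB⟩ := cc_fin hG hle hfin hB'
  rcases chain hT hact hG hGC huv hB (fun K h0 hK _ => chain_ab hfin hfg hcomm K h0 hK) hp hq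
    with h | ⟨h, h1, h2⟩
  · exact Or.inl h
  · exact Or.inr ⟨B, h, h1, h2⟩

end Pool.Agent.V7H57.RK
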