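import Pool.Agent.V7H57.RK.Core

/-!
# Rank rigidity for groups acting on trees: stable segments and the chain condition
-/

set_option autoImplicit false

open Metric Set Filter Topology
open Pool.Agent.TH60.FP Pool.Agent.TH60.FP.Strip Pool.Agent.Y34.HB Pool.Agent.Y34.EL
open Pool.Agent.T6.H46.RR Pool.Agent.T6.H67.TA Pool.Agent.T6.H46.RC

namespace Pool.Agent.V7H57.RK

variable {X : Type} [MetricSpace X] {G : Type} [Group G] [MulAction G X]
variable {V : Type} {T : SimpleGraph V} (hT : T.IsTree) [MulAction G V]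
  (hact : ∀ (g : G) (u v : V), T.Adj u v → T.Adj (g • u) (g • v))

include hT hact in
lemma sh_axis {x y : V} (hxy : x ≠ y) {t : G} (ht : Sh T x y t) : OnAxis T t x ∧
    D T x (t ^ 2 • x) = D T x y + D T y (t ^ 2 • x) := by
  obtain ⟨t1, t2, t3⟩ := ht.vals hT hact
  have hl := D_pos hT hxy
  have h0 := D_nonneg (T := T) y (t • x)
  have e0 : t ^ 2 • x = t • t • x := by rw [pow_two, mul_smul]
  have s1 : D T (t • x) (t • t • x) = D T x (t • x) := D_smul hT hact t x (t • x)
  have s2 : D T (t • y) (t • t • x) = D T y (t • x) := D_smul hT hact t y (t • x)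
  have s3 : D T (t • x) (t • y) = D T x y := D_smul hT hact t x y
  have e1 := glue hT (w := x) (c := t • x) (d := t • y) (z := t • t • x) (by omega) (by omega)
    (fun h => hxy (smul_left_cancel t h))
  have e2 : D T (t • x) (t⁻¹ • x) = D T x (t • t • x) := by
    rw [D_inv' hT hact t (t • x) x]
  have e3 : D T x (t⁻¹ • x) = D T x (t • x) := D_inv hT hact t x
  refine ⟨⟨by omega, ?_⟩, ?_⟩
  · unfold P
    omega
  · rw [e0]
    have h1 := D_tri hT x y (t • t • x)
    have h2 := D_tri hT y (t • x) (t • t • x)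
    omega

include hT hact in
/-- finite segment stabilisers -/
lemma rank_one_of_fin (hG : Geo X G) {x y : V} (hxy : x ≠ y) {t : G} (ht : Sh T x y t)
    (hfin : (St G x y : Set G).Finite) (o : X) : RankOne X t := by
  obtain ⟨h1, h2⟩ := sh_axis hT hact hxy ht
  refine rank_one_of_finite hT hact hG o h1 2 (hfin.subset ?_)
  rintro s ⟨e1, e2⟩
  show s ∈ St G x y
  rw [mem_St]
  refine ⟨e1, fix_between hT hact (a := x) (b := t ^ 2 • x) ?_ e1 e2⟩
  unfold P
  rw [D_comm y x]
  omega

include hT hact in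
lemma not_univ (hG : Geo X G) {x y : V} (hxy : x ≠ y) {t : G} (ht : Sh T x y t) {B : Set X}
    (hB : CC (St G x y) B) : ¬ ∀ z, z ∈ B := by
  intro hall
  have := hG.isom
  obtain ⟨hax, -⟩ := sh_axis hT hact hxy ht
  obtain ⟨o, ho⟩ := hB.ne
  obtain ⟨D₀, hD0, hD⟩ := cc_near hG hB ho
  have hF := finite_short hG o D₀
  have h1 : ∀ n : ℕ, ∃ g ∈ St G x y, dist o ((g⁻¹ * t ^ n) • o) ≤ D₀ := by
    intro n
    obtain ⟨g, hg, hgd⟩ := hD (t ^ n • o) (hall _)
    refine ⟨g, hg, ?_⟩
    rw [mul_smul, ← dist_smul g, smul_inv_smul, dist_comm]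
    exact hgd
  choose g hg hgd using h1
  have hninj : ¬ Function.Injective (fun n : ℕ => (g n)⁻¹ * t ^ n) := by
    intro hinj
    have : (univ : Set ℕ).Finite :=
      Set.Finite.of_injOn (f := fun n : ℕ => (g n)⁻¹ * t ^ n) (fun n _ => hgd n)
        (hinj.injOn) hF
    exact Set.infinite_univ this
  rw [Function.Injective] at hninj
  push Not at hninj
  have key : ∀ m n : ℕ, m < n → (g m)⁻¹ * t ^ m = (g n)⁻¹ * t ^ n → False := by
    intro m n hmn he
    have e1 : t ^ (n - m) ∈ St G x y := by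
      have e2 : t ^ n = t ^ (n - m) * t ^ m := by
        rw [← pow_add]; congr 1; omega
      rw [e2] at he
      have e3 : t ^ (n - m) = g n * (g m)⁻¹ := by
        have : (g m)⁻¹ = (g n)⁻¹ * t ^ (n - m) := by
          have := congrArg (· * (t ^ m)⁻¹) he
          simpa [mul_assoc] using this
        rw [this]; group
      rw [e3]
      exact (St G x y).mul_mem (hg n) ((St G x y).inv_mem (hg m))
    have h3 := (mem_St.1 e1).1
    have h4 := D_pow hT hact hax (n - m)
    rw [h3, D_self] at h4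
    have h5 : (0 : ℤ) < ((n - m : ℕ) : ℤ) * D T x (t • x) :=
      mul_pos (by omega) hax.1
    omega
  obtain ⟨m, n, he, hne⟩ := hninj
  rcases lt_or_gt_of_ne hne with h | h
  · exact key m n h he
  · exact key n m h he.symm

/-- a product of two spaces with more than one point, the second one is a closed convex subset of
`B` on which `L` acts cocompactly -/
def Splits (B : Set X) (L : Subgroup G) : Prop :=
  ∃ B₀ : Set X, B₀ ⊆ B ∧ CC L B₀ ∧ Nontrivial B₀ ∧
    ∃ (Z : Type) (_ : MetricSpace Z) (_ : Nontrivial Z) (e : X ≃ Z × B₀),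
      ∀ x x' : X, dist x x' ^ 2 = dist (e x).1 (e x').1 ^ 2 + dist (e x).2 (e x').2 ^ 2

include hT hact in
/-- **Stable segments.** -/
theorem core (hG : Geo X G) (hGC : GC X) {x y : V} (hxy : x ≠ y) {B : Set X}
    (hB : CC (St G x y) B) (hst : Stable G T x y) {p q : G} (hp : Fc T x y p)
    (hq : Fc T y x q) : (∃ g : G, RankOne X g) ∨ Splits B (St G x y) := by
  have := hG.isom
  have ht := fc_mul hT hact hxy hp hq
  obtain ⟨o, ho⟩ := hB.ne
  by_cases hfin : (St G x y : Set G).Finite
  · exact Or.inl ⟨_, rank_one_of_fin hT hact hG hxy ht hfin o⟩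
  · right
    obtain ⟨B₀, hsub, h₀, h | h⟩ := split_of_bd hG hGC hB
      (bd_all hT hact hG hxy hB hst hp hq)
    · exact absurd h (not_univ hT hact hG hxy ht h₀)
    · refine ⟨B₀, hsub, h₀, ?_, h⟩
      rw [Set.nontrivial_coe_sort]
      by_contra hcon
      rw [Set.not_nontrivial_iff] at hcon
      obtain ⟨z, hz⟩ := h₀.ne
      refine hfin ((finite_short hG z 0).subset fun s hs => ?_)
      have h1 : s • z = z := hcon (h₀.inv s hs z hz) hz
      show dist z (s • z) ≤ 0
      rw [h1, dist_self]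

/-- the intersection with a conjugate is convex cocompact -/
lemma cc_inter (hG : Geo X G) {A L : Subgroup G} {B : Set X} (hB : CC A B) (h : G)
    (hL : ∀ s : G, s ∈ L ↔ s ∈ A ∧ h⁻¹ * s * h ∈ A) :
    ∃ B' : Set X, B' ⊆ B ∧ CC L B' := by
  have := hG.isom
  have := hG.proper
  obtain ⟨o, ho⟩ := hB.ne
  set r := ph B h o with hr
  obtain ⟨R₁, hR₁⟩ := coarse hG hB ho h r
  refine ⟨{x | x ∈ B ∧ ph B h x ≤ r}, fun x hx => hx.1, ⟨o, ho, le_rfl⟩, ?_, ?_, ?_, ?_⟩
  · have hlip : LipschitzWith 1 (ph B h) := LipschitzWith.of_dist_le_mul fun x y => by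
      rw [Real.dist_eq, NNReal.coe_one, one_mul]; exact ph_lip B h x y
    have h1 : IsClosed {x : X | ph B h x ≤ r} := isClosed_le hlip.continuous continuous_const
    exact hB.closed.inter h1
  · intro p hp q hq m hm
    refine ⟨hB.conv p hp.1 q hq.1 m hm, ?_⟩
    have h1 := ph_convex hG.cn hB h p q m hm
    rcases eq_or_lt_of_le (dist_nonneg (x := p) (y := q)) with h0 | h0
    · have e1 := dist_nonneg (x := p) (y := m)
      have e2 := dist_nonneg (x := m) (y := q)
      have h3 : dist p m = 0 := by linarith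
      rw [← dist_eq_zero.1 h3]
      exact hp.2
    · have h2 : dist m q * ph B h p + dist p m * ph B h q ≤ dist p q * r := by
        have e1 := mul_le_mul_of_nonneg_left hp.2 (dist_nonneg (x := m) (y := q))
        have e2 := mul_le_mul_of_nonneg_left hq.2 (dist_nonneg (x := p) (y := m))
        rw [← hm, add_mul]
        linarith
      exact le_of_mul_le_mul_left (h1.trans h2) h0
  · intro g hg x hx
    obtain ⟨g1, g2⟩ := (hL g).1 hg
    exact ⟨hB.inv g g1 x hx.1, by rw [ph_inv hB g2]; exact hx.2⟩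
  · refine ⟨closedBall o R₁, isCompact_closedBall o R₁, fun x hx => ?_⟩
    obtain ⟨a, ha, hax⟩ := hR₁ x hx.1 hx.2
    refine ⟨(a : G)⁻¹, L.inv_mem ((hL _).2 ⟨a.2, mem_IK.1 ha⟩), ?_⟩
    rw [mem_closedBall, ← dist_smul (a : G), smul_inv_smul]
    exact hax

include hT hact in
lemma st_sh {u v : V} {h : G} (hh : Sh T u v h) (s : G) :
    s ∈ St G u (h • v) ↔ s ∈ St G u v ∧ h⁻¹ * s * h ∈ St G u v := by
  obtain ⟨h1, h2, h3⟩ := hh.vals hT hact
  simp only [mem_St]
  rw [mul_smul, mul_smul, inv_smul_eq_iff, mul_smul, mul_smul, inv_smul_eq_iff]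
  constructor
  · rintro ⟨e1, e2⟩
    have e3 : s • v = v := by
      refine fix_between hT hact (a := u) (b := h • v) ?_ e1 e2
      unfold P
      rw [D_comm v u]
      omega
    have e4 : s • h • u = h • u := by
      refine fix_between hT hact (a := u) (b := h • v) ?_ e1 e2
      have := D_smul hT hact h u v
      unfold P
      rw [D_comm (h • u) u]
      omega
    exact ⟨⟨e1, e3⟩, e4, e2⟩
  · rintro ⟨⟨e1, -⟩, -, e2⟩
    exact ⟨e1, e2⟩

include hT hact in
lemma fc_long {u v : V} (huv : u ≠ v) {h p : G} (hh : Sh T u v h) (hp : Fc T u v p) :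
    Fc T u (h • v) (h * p * h⁻¹) := by
  obtain ⟨h1, h2, h3⟩ := hh.vals hT hact
  obtain ⟨p1, p2, p3⟩ := hp.vals hT hact
  have s1 : D T (p • v) (p • u) = D T u v := by rw [D_smul hT hact, D_comm]
  have s2 : D T (p • v) (p • h⁻¹ • u) = D T u (h • v) := by
    rw [D_smul hT hact, D_inv' hT hact]
  have s3 : D T (p • u) (p • h⁻¹ • u) = D T u (h • u) := by
    rw [D_smul hT hact, D_inv' hT hact]
  have hne : p • v ≠ p • u := fun h => huv (smul_left_cancel p h).symm
  have hh1 : D T (h • u) (h • v) = D T u v := D_smul hT hact h u v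
  have e1 := glue hT (w := u) (c := p • v) (d := p • u) (z := p • h⁻¹ • u) (by omega)
    (by rw [s2, s1, s3]; omega) hne
  have e2 := glue hT (w := v) (c := p • v) (d := p • u) (z := p • h⁻¹ • u) (by omega)
    (by rw [s2, s1, s3]; omega) hne
  have k : ∀ a b : V, D T (h • a) (h • b) = D T a b := D_smul hT hact h
  have hne2 : h • u ≠ h • v := fun h' => huv (smul_left_cancel h h')
  have e3 := glue hT (w := u) (c := h • u) (d := h • v) (z := h • p • h⁻¹ • u) (by omega)
    (by rw [k, k, k]; omega) hne2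
  rw [k, k] at e3
  have e4 : (h * p * h⁻¹) • u = h • p • h⁻¹ • u := by rw [mul_smul, mul_smul]
  have e5 : (h * p * h⁻¹) • h • v = h • p • v := by
    rw [mul_smul, mul_smul, inv_smul_smul]
  unfold Fc
  rw [e4, e5, k]
  omega

include hT hact in
lemma fc_long' {u v : V} (huv : u ≠ v) {h q : G} (hh : Sh T u v h) (hq : Fc T v u q) :
    Fc T (h • v) u q := by
  obtain ⟨h1, h2, h3⟩ := hh.vals hT hact
  obtain ⟨q1, q2, q3⟩ := hq.vals hT hact
  rw [D_comm v u] at q1 q2 q3
  have hh1 : D T (h • u) (h • v) = D T u v := D_smul hT hact h u v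
  have k : ∀ a b : V, D T (q • a) (q • b) = D T a b := D_smul hT hact q
  have hne : q • u ≠ q • v := fun h => huv (smul_left_cancel q h)
  have e1 := glue hT (w := v) (c := q • u) (d := q • v) (z := q • h • v) (by rw [k]; omega)
    (by rw [k, k, k]; omega) hne
  have e2 := glue hT (w := u) (c := q • u) (d := q • v) (z := q • h • v) (by rw [k]; omega)
    (by rw [k, k, k]; omega) hne
  rw [k, k] at e1 e2
  have e3 := glue hT (w := h • v) (c := v) (d := u) (z := q • h • v)
    (by rw [D_comm (h • v) u, D_comm (h • v) v, D_comm v u]; omega)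
    (by rw [D_comm v u]; omega) huv.symm
  rw [D_comm v u, D_comm (h • v) v] at e3
  unfold Fc
  rw [D_comm (h • v) u]
  omega

include hT hact in
lemma sh_long {u v : V} {h c : G} (hh : Sh T u v h) (hc : Sh T u (h • v) c) :
    Sh T u v (c * h) := by
  obtain ⟨h1, h2, h3⟩ := hh.vals hT hact
  obtain ⟨c1, c2, c3⟩ := hc.vals hT hact
  have k : ∀ a b : V, D T (c • a) (c • b) = D T a b := D_smul hT hact c
  have s1 := k (h • u) (h • v)
  have s2 := k u (h • u)
  have s3 := D_smul hT hact h u v
  have t1 := D_tri hT v (h • v) (c • u)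
  have t2 := D_tri hT v (c • u) (c • h • u)
  have t3 := D_tri hT u v (c • h • u)
  have t4 := D_tri hT u (c • h • u) (c • h • v)
  unfold Sh
  rw [mul_smul, mul_smul]
  omega

lemma relIndex_smul (g : G) (a b c d : V) :
    (St G (g • a) (g • b)).relIndex (St G (g • c) (g • d)) =
      (St G a b).relIndex (St G c d) := by
  have h : ∀ a b : V, St G (g • a) (g • b) =
      (St G a b).map (MulAut.conj g).toMonoidHom := by
    intro a b
    unfold St
    rw [MulAction.stabilizer_smul_eq_stabilizer_map_conj,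
      MulAction.stabilizer_smul_eq_stabilizer_map_conj,
      Subgroup.map_inf _ _ _ (MulAut.conj g).injective]
  rw [h, h, Subgroup.relIndex_map_map_of_injective _ _ (MulAut.conj g).injective]

/-- the chain condition for the stabilisers of pairs of vertices which are contained in `A` -/
def ChainCond (V : Type) [MulAction G V] (A : Subgroup G) : Prop :=
  ∀ K : ℕ → Subgroup G, K 0 ≤ A → (∀ n, K (n + 1) ≤ K n) → (∀ n, ∃ z w : V, K n = St G z w) →
    ∃ n, (K (n + 1)).relIndex (K n) ≠ 0

include hT hact in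
/-- the chain condition gives stable segments -/
lemma exists_stable {u v : V} {h₀ : G} (hh₀ : Sh T u v h₀)
    (hch : ChainCond V (St G u v)) : ∃ h : G, Sh T u v h ∧ Stable G T u (h • v) := by
  by_contra hcon
  push Not at hcon
  have step : ∀ s : G × {h : G // Sh T u v h}, ∃ s' : G × {h : G // Sh T u v h},
      St G (s'.1 • u) (s'.1 • s'.2.1 • v) ≤ St G (s.1 • u) (s.1 • s.2.1 • v) ∧
      (St G (s'.1 • u) (s'.1 • s'.2.1 • v)).relIndex (St G (s.1 • u) (s.1 • s.2.1 • v)) = 0 := by
    rintro ⟨g, h, hh⟩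
    have h1 := hcon h hh
    unfold Stable at h1
    push Not at h1
    obtain ⟨c, hc, h2⟩ := h1
    have hch' := sh_long hT hact hh hc
    obtain ⟨c1, c2, c3⟩ := hc.vals hT hact
    by_cases h3 : (St G u (c • h • v)).relIndex (St G u (h • v)) = 0
    · refine ⟨⟨g, c * h, hch'⟩, ?_, ?_⟩
      · intro s hs
        have e1 : (c * h) • v = c • h • v := mul_smul _ _ _
        simp only [mem_St, e1] at hs ⊢
        refine ⟨hs.1, fix_between hT hact (a := g • u) (b := g • c • h • v) ?_ hs.1 hs.2⟩
        unfold P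
        rw [D_smul hT hact, D_smul hT hact, D_smul hT hact, D_comm (h • v) u]
        omega
      · show (St G (g • u) (g • (c * h) • v)).relIndex (St G (g • u) (g • h • v)) = 0
        rw [mul_smul, relIndex_smul]
        exact h3
    · have h4 := h2 h3
      refine ⟨⟨g * c⁻¹, c * h, hch'⟩, ?_, ?_⟩
      · intro s hs
        have e1 : (g * c⁻¹) • (c * h) • v = g • h • v := by
          rw [smul_smul, smul_smul]; congr 1; group
        have e2 : (g * c⁻¹) • u = g • c⁻¹ • u := mul_smul _ _ _
        simp only [mem_St, e1, e2] at hs ⊢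
        refine ⟨fix_between hT hact (a := g • c⁻¹ • u) (b := g • h • v) ?_ hs.1 hs.2, hs.2⟩
        have e3 : D T u (c⁻¹ • u) = D T u (c • u) := D_inv hT hact c u
        have e4 : D T (c⁻¹ • u) (h • v) = D T u (c • h • v) := by
          rw [← D_smul hT hact c (c⁻¹ • u), smul_inv_smul]
        unfold P
        rw [D_smul hT hact, D_smul hT hact, D_smul hT hact]
        omega
      · show (St G ((g * c⁻¹) • u) ((g * c⁻¹) • (c * h) • v)).relIndex
          (St G (g • u) (g • h • v)) = 0
        have e1 : (g * c⁻¹) • (c * h) • v = g • h • v := by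
          rw [smul_smul, smul_smul]; congr 1; group
        rw [e1, mul_smul, relIndex_smul]
        exact h4
  choose f hf1 hf2 using step
  let s : ℕ → G × {h : G // Sh T u v h} := fun n => f^[n] ⟨1, h₀, hh₀⟩
  have hs : ∀ n, s (n + 1) = f (s n) := fun n => Function.iterate_succ_apply' f n _
  obtain ⟨n, hn⟩ := hch (fun n => St G ((s n).1 • u) ((s n).1 • (s n).2.1 • v)) (by
    show St G ((1 : G) • u) ((1 : G) • h₀ • v) ≤ St G u v
    rw [one_smul, one_smul]
    intro g hg
    exact ((st_sh hT hact hh₀ g).1 hg).1) (fun n => by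
    show St G ((s (n + 1)).1 • u) ((s (n + 1)).1 • (s (n + 1)).2.1 • v) ≤ _
    rw [hs]
    exact hf1 _) (fun n => ⟨_, _, rfl⟩)
  apply hn
  show (St G ((s (n + 1)).1 • u) ((s (n + 1)).1 • (s (n + 1)).2.1 • v)).relIndex _ = 0
  rw [hs]
  exact hf2 _

include hT hact in
/-- **The chain condition.** -/
theorem chain (hG : Geo X G) (hGC : GC X) {u v : V} (huv : u ≠ v) {B : Set X}
    (hB : CC (St G u v) B) (hch : ChainCond V (St G u v)) {p q : G} (hp : Fc T u v p)
    (hq : Fc T v u q) : (∃ g : G, RankOne X g) ∨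
      ∃ h : G, Sh T u v h ∧ Splits B (St G u (h • v)) := by
  have ht := fc_mul hT hact huv hp hq
  obtain ⟨h, hh, hst⟩ := exists_stable hT hact ht hch
  obtain ⟨B', hsub, hB'⟩ := cc_inter hG hB h (st_sh hT hact hh)
  have hne : u ≠ h • v := by
    intro he
    obtain ⟨h1, h2, h3⟩ := hh.vals hT hact
    rw [← he, D_self] at h1
    have := D_pos hT huv
    have := D_nonneg (T := T) v (h • u)
    omega
  rcases core hT hact hG hGC hne hB' hst (fc_long hT hact huv hh hp)
    (fc_long' hT hact huv hh hq) with h1 | ⟨B₀, h2, h3⟩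
  · exact Or.inl h1
  · exact Or.inr ⟨h, hh, B₀, h2.trans hsub, h3⟩

end Pool.Agent.V7H57.RK
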