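import Pool.Agent.V7H57.RK.Seg

/-!
# Segment stabilisers which are minimal up to finite index
-/

set_option autoImplicit false

open Metric Set Filter Topology
open Pool.Agent.TH60.FP Pool.Agent.TH60.FP.Strip Pool.Agent.Y34.HB Pool.Agent.Y34.EL
open Pool.Agent.T6.H46.RR Pool.Agent.T6.H67.TA Pool.Agent.T6.H46.RC

namespace Pool.Agent.V7H57.RK

variable {X : Type} [MetricSpace X] {G : Type} [Group G] [MulAction G X]

/-- finitely many right cosets -/
lemma exists_reps {L M : Subgroup G} (hML : M.relIndex L ≠ 0) :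
    ∃ F : Set G, F.Finite ∧ ∀ s ∈ L, ∃ r ∈ F, s * r⁻¹ ∈ M := by
  have hfi : (M.subgroupOf L).FiniteIndex := ⟨hML⟩
  have : Finite (L ⧸ M.subgroupOf L) := Subgroup.finite_quotient_of_finiteIndex
  refine ⟨Set.range (fun q : L ⧸ M.subgroupOf L => ((q.out : L) : G)⁻¹), Set.finite_range _, ?_⟩
  intro s hs
  obtain ⟨m, hm⟩ := QuotientGroup.mk_out_eq_mul (M.subgroupOf L) (⟨s, hs⟩⁻¹ : L)
  refine ⟨(((QuotientGroup.mk (s := M.subgroupOf L) (⟨s, hs⟩⁻¹ : L)).out : L) : G)⁻¹,
    ⟨_, rfl⟩, ?_⟩
  rw [inv_inv]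
  have h2 : s * (((QuotientGroup.mk (s := M.subgroupOf L) (⟨s, hs⟩⁻¹ : L)).out : L) : G) =
      ((m : L) : G) := by
    rw [hm]; simp
  rw [h2]
  exact Subgroup.mem_subgroupOf.1 m.2

/-- a subgroup of finite index which is conjugated into `L` gives a bound -/
lemma bd_of_index (hG : Geo X G) {L M : Subgroup G} {B : Set X} (hB : CC L B)
    (hML : M.relIndex L ≠ 0) {h : G} (hM : ∀ s ∈ M, h⁻¹ * s * h ∈ L) : Bd B h := by
  have := hG.isom
  have := hG.proper
  obtain ⟨o, ho⟩ := hB.ne
  obtain ⟨D, hD0, hD⟩ := cc_near hG hB ho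
  obtain ⟨F, hF, hrep⟩ := exists_reps hML
  obtain ⟨C, hC⟩ := (hF.image (fun r => ph B h (r • o))).bddAbove
  refine ⟨C + D, fun x hx => ?_⟩
  obtain ⟨g, hg, hgx⟩ := hD x hx
  obtain ⟨r, hr, hgr⟩ := hrep g hg
  have h1 : ph B h (g • o) = ph B h (r • o) := by
    have h2 : g • o = (g * r⁻¹) • r • o := by rw [smul_smul]; congr 1; group
    rw [h2, ph_inv hB (hM _ hgr)]
  have h3 : ph B h (r • o) ≤ C := hC ⟨r, hr, rfl⟩
  have h4 := ph_lip B h x (g • o)
  rw [abs_le] at h4
  linarith

variable {V : Type} {T : SimpleGraph V} (hT : T.IsTree) [MulAction G V]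
  (hact : ∀ (g : G) (u v : V), T.Adj u v → T.Adj (g • u) (g • v))

/-- the common stabiliser of two vertices -/
def St (G : Type) [Group G] {V : Type} [MulAction G V] (x y : V) : Subgroup G :=
  MulAction.stabilizer G x ⊓ MulAction.stabilizer G y

lemma mem_St {x y : V} {s : G} : s ∈ St G x y ↔ s • x = x ∧ s • y = y := by
  simp [St, MulAction.mem_stabilizer_iff]

/-- the stabilisers of the longer segments have finite index -/
def Stable (G : Type) [Group G] {V : Type} [MulAction G V] (T : SimpleGraph V) (x y : V) : Prop :=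
  ∀ c : G, Sh T x y c → (St G x (c • y)).relIndex (St G x y) ≠ 0 ∧
    (St G (c⁻¹ • x) y).relIndex (St G x y) ≠ 0

include hT hact in
lemma bd_all (hG : Geo X G) {x y : V} (hxy : x ≠ y) {B : Set X} (hB : CC (St G x y) B)
    (hst : Stable G T x y) {p q : G} (hp : Fc T x y p) (hq : Fc T y x q) (g : G) : Bd B g := by
  have := hG.isom
  have := hG.proper
  -- shifts
  have b1 : ∀ c : G, Sh T x y c → Bd B c := by
    intro c hc
    obtain ⟨c1, c2, c3⟩ := hc.vals hT hact
    refine bd_of_index hG hB (hst c hc).1 fun s hs => ?_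
    rw [mem_St] at hs ⊢
    have h1 : s • c • x = c • x := by
      refine fix_between hT hact (a := x) (b := c • y) ?_ hs.1 hs.2
      unfold P
      rw [D_comm (c • x) x, D_smul hT hact]
      omega
    exact ⟨by rw [mul_smul, mul_smul, inv_smul_eq_iff]; exact h1,
      by rw [mul_smul, mul_smul, inv_smul_eq_iff]; exact hs.2⟩
  have b2 : ∀ c : G, Sh T x y c → Bd B c⁻¹ := by
    intro c hc
    obtain ⟨c1, c2, c3⟩ := hc.vals hT hact
    refine bd_of_index hG hB (hst c hc).2 fun s hs => ?_
    rw [mem_St] at hs ⊢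
    have h1 : s • c⁻¹ • y = c⁻¹ • y := by
      refine fix_between hT hact (a := c⁻¹ • x) (b := y) ?_ hs.1 hs.2
      unfold P
      have e1 : D T (c⁻¹ • y) (c⁻¹ • x) = D T x y := by rw [D_smul hT hact, D_comm]
      have e2 : D T (c⁻¹ • y) y = D T y (c • y) := by
        rw [← D_smul hT hact c (c⁻¹ • y), smul_inv_smul]
      have e3 : D T (c⁻¹ • x) y = D T x (c • y) := by
        rw [← D_smul hT hact c (c⁻¹ • x), smul_inv_smul]
      omega
    rw [inv_inv]
    exact ⟨by rw [mul_smul, mul_smul, hs.1, smul_inv_smul],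
      by rw [mul_smul, mul_smul, h1, smul_inv_smul]⟩
  -- facing elements
  have b3 : ∀ d : G, Fc T x y d → Bd B d := by
    intro d hd
    have hc := fc_mul hT hact hxy hd hq
    obtain ⟨c1, c2, c3⟩ := hc.vals hT hact
    obtain ⟨d1, d2, d3⟩ := hd.vals hT hact
    obtain ⟨q1, q2, q3⟩ := hq.vals hT hact
    have s0 : ∀ u v : V, D T (d • u) ((d * q) • v) = D T u (q • v) := by
      intro u v; rw [mul_smul, D_smul hT hact]
    refine bd_of_index hG hB (hst _ hc).1 fun s hs => ?_
    rw [mem_St] at hs ⊢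
    have hd0 := D_smul hT hact d y x
    rw [D_comm y x] at hd0 q1 q2 q3
    have hne : d • y ≠ d • x := fun h => hxy (smul_left_cancel d h).symm
    have e1 := glue hT (w := x) (c := d • y) (d := d • x) (z := (d * q) • y) (by omega)
      (by rw [s0, s0]; omega) hne
    have s1 := s0 x y
    have s2 := s0 y y
    have h1 : s • d • x = d • x := by
      refine fix_between hT hact (a := x) (b := (d * q) • y) ?_ hs.1 hs.2
      unfold P
      rw [D_comm (d • x) x]
      omega
    have h2 : s • d • y = d • y := by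
      refine fix_between hT hact (a := x) (b := (d * q) • y) ?_ hs.1 hs.2
      unfold P
      rw [D_comm (d • y) x]
      omega
    exact ⟨by rw [mul_smul, mul_smul, inv_smul_eq_iff]; exact h1,
      by rw [mul_smul, mul_smul, inv_smul_eq_iff]; exact h2⟩
  have b4 : ∀ d : G, Fc T y x d → Bd B d := by
    intro d hd
    have hc0 : Sh T y x (d * p) := fc_mul hT hact hxy.symm hd hp
    have hc : Sh T x y (d * p)⁻¹ := (sh_inv hT hact).2 hc0
    obtain ⟨c1, c2, c3⟩ := hc0.vals hT hact
    obtain ⟨d1, d2, d3⟩ := hd.vals hT hact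
    obtain ⟨q1, q2, q3⟩ := hp.vals hT hact
    have s0 : ∀ u v : V, D T (d • u) ((d * p) • v) = D T u (p • v) := by
      intro u v; rw [mul_smul, D_smul hT hact]
    have hidx := (hst _ hc).2
    rw [inv_inv] at hidx
    refine bd_of_index hG hB hidx fun s hs => ?_
    rw [mem_St] at hs ⊢
    have hd0 := D_smul hT hact d x y
    rw [D_comm y x] at d1 d2 d3 c1 c2 c3
    have hne : d • x ≠ d • y := fun h => hxy (smul_left_cancel d h)
    have e1 := glue hT (w := y) (c := d • x) (d := d • y) (z := (d * p) • x) (by omega)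
      (by rw [s0, s0]; omega) hne
    have s1 := s0 x x
    have s2 := s0 y x
    have h1 : s • d • x = d • x := by
      refine fix_between hT hact (a := y) (b := (d * p) • x) ?_ hs.2 hs.1
      unfold P
      rw [D_comm (d • x) y]
      omega
    have h2 : s • d • y = d • y := by
      refine fix_between hT hact (a := y) (b := (d * p) • x) ?_ hs.2 hs.1
      unfold P
      rw [D_comm (d • y) y]
      omega
    exact ⟨by rw [mul_smul, mul_smul, inv_smul_eq_iff]; exact h1,
      by rw [mul_smul, mul_smul, inv_smul_eq_iff]; exact h2⟩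
  have ht : Sh T x y (p * q) := fc_mul hT hact hxy hp hq
  set t := p * q with htd
  have t1 := b1 t ht
  have t2 := b2 t ht
  rcases four_cases hT hact hxy ht g with h | h | h | h
  · have h1 := (t2.mul hB (b1 _ h)).mul hB t2
    have e : t⁻¹ * (t * g * t) * t⁻¹ = g := by group
    rwa [e] at h1
  · have h1 := (t2.mul hB (b3 _ h)).mul hB t1
    have e : t⁻¹ * (t * g * t⁻¹) * t = g := by group
    rwa [e] at h1
  · have h1 := (t1.mul hB (b4 _ h)).mul hB t2
    have e : t * (t⁻¹ * g * t) * t⁻¹ = g := by group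
    rwa [e] at h1
  · have h0 := b2 _ ((sh_inv hT hact).2 h)
    rw [inv_inv] at h0
    have h1 := (t1.mul hB h0).mul hB t1
    have e : t * (t⁻¹ * g * t⁻¹) * t = g := by group
    rwa [e] at h1

end Pool.Agent.V7H57.RK
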