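import Pool.Agent.V7H57.RK.Ab

/-!
# Actions with a fixed end, and the final form of the theorems
-/

set_option autoImplicit false

open Metric Set Filter Topology
open Pool.Agent.TH60.FP Pool.Agent.TH60.FP.Strip Pool.Agent.Y34.HB Pool.Agent.Y34.EL
open Pool.Agent.T6.H46.RR Pool.Agent.T6.H67.TA Pool.Agent.T6.H46.RC

namespace Pool.Agent.V7H57.RK

variable {G : Type} [Group G]
variable {V : Type} {T : SimpleGraph V} (hT : T.IsTree) [MulAction G V]
  (hact : ∀ (g : G) (u v : V), T.Adj u v → T.Adj (g • u) (g • v))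

include hT hact in
/-- the powers of a shift -/
lemma sh_pow {x y : V} (hxy : x ≠ y) {t : G} (ht : Sh T x y t) (n : ℕ) :
    Sh T x y (t ^ (n + 1)) ∧ D T x (t ^ (n + 1) • y) = (n + 1 : ℕ) * D T x (t • x) + D T x y := by
  obtain ⟨t1, t2, t3⟩ := ht.vals hT hact
  induction n with
  | zero =>
    rw [zero_add, pow_one]
    refine ⟨ht, ?_⟩
    push_cast; omega
  | succ n ih =>
    obtain ⟨ih1, ih2⟩ := ih
    obtain ⟨i1, i2, i3⟩ := ih1.vals hT hact
    have e : ∀ z : V, t ^ (n + 1 + 1) • z = t • t ^ (n + 1) • z := by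
      intro z; rw [pow_succ' t (n + 1), mul_smul]
    have s : ∀ u v : V, D T (t • u) (t • v) = D T u v := D_smul hT hact t
    have hne : t • x ≠ t • y := fun h => hxy (smul_left_cancel t h)
    have e1 := glue hT (w := x) (c := t • x) (d := t • y) (z := t • t ^ (n + 1) • y)
      (by rw [s]; omega) (by rw [s, s, s]; omega) hne
    have e2 := glue hT (w := y) (c := t • x) (d := t • y) (z := t • t ^ (n + 1) • x)
      (by rw [s]; omega) (by rw [s, s, s]; omega) hne
    rw [s, s] at e1 e2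
    refine ⟨?_, ?_⟩
    · unfold Sh
      rw [e, e]
      omega
    · rw [e, e1]
      push_cast
      push_cast at ih2
      linarith

include hT hact in
/-- a shift of the longer segment -/
lemma sh_two {u v : V} (huv : u ≠ v) {h : G} (hh : Sh T u v h) : Sh T u (h • v) (h ^ 2) := by
  obtain ⟨h1, h2, h3⟩ := hh.vals hT hact
  have h4 := (sh_pow hT hact huv hh 2).2
  unfold Sh
  have e1 : h ^ 2 • h • v = h ^ (2 + 1) • v := by rw [pow_succ h 2, mul_smul]
  have e2 : D T (h • v) (h ^ 2 • u) = D T v (h • u) := by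
    rw [pow_two, mul_smul, D_smul hT hact]
  rw [e1, e2, h4]
  push_cast
  linarith

include hT hact in
lemma far_aux {x y w : V} (hxy : x ≠ y) {t : G} (ht : Sh T x y t) {m : ℕ}
    (h : D T w (t ^ (m + 1) • x) = D T w (t ^ (m + 1) • y) + D T x y) :
    (m : ℤ) < D T y w := by
  obtain ⟨h1, -⟩ := sh_pow hT hact hxy ht m
  have h2 := (sh_pow hT hact hxy ht m).2
  obtain ⟨i1, i2, i3⟩ := h1.vals hT hact
  obtain ⟨t1, t2, t3⟩ := ht.vals hT hact
  have hl := D_pos hT hxy
  have s : D T (t ^ (m + 1) • x) (t ^ (m + 1) • y) = D T x y := D_smul hT hact _ x y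
  have hne : t ^ (m + 1) • x ≠ t ^ (m + 1) • y := fun h => hxy (smul_left_cancel _ h)
  have e1 := glue hT (w := y) (c := t ^ (m + 1) • x) (d := t ^ (m + 1) • y) (z := w) (by omega)
    (by rw [D_comm _ w, D_comm _ w, s]; omega) hne
  have e2 := D_nonneg (T := T) (t ^ (m + 1) • y) w
  have e3 := D_nonneg (T := T) y (t • x)
  have e4 : ((m + 1 : ℕ) : ℤ) * 1 ≤ (m + 1 : ℕ) * D T x (t • x) :=
    mul_le_mul_of_nonneg_left (by omega) (by positivity)
  push_cast at e4 h2
  rw [e1, s]
  omega

variable {X : Type} [MetricSpace X] [MulAction G X]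

include hT hact in
/-- shifts of a stable segment -/
lemma bd_sh (hG : Geo X G) {x y : V} {B : Set X} (hB : CC (St G x y) B)
    (hst : Stable G T x y) {c : G} (hc : Sh T x y c) : Bd B c ∧ Bd B c⁻¹ := by
  obtain ⟨c1, c2, c3⟩ := hc.vals hT hact
  constructor
  · refine bd_of_index hG hB (hst c hc).1 fun s hs => ?_
    rw [mem_St] at hs ⊢
    have h1 : s • c • x = c • x := by
      refine fix_between hT hact (a := x) (b := c • y) ?_ hs.1 hs.2
      unfold P
      rw [D_comm (c • x) x, D_smul hT hact]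
      omega
    exact ⟨by rw [mul_smul, mul_smul, inv_smul_eq_iff]; exact h1,
      by rw [mul_smul, mul_smul, inv_smul_eq_iff]; exact hs.2⟩
  · refine bd_of_index hG hB (hst c hc).2 fun s hs => ?_
    rw [mem_St] at hs ⊢
    have h1 : s • c⁻¹ • y = c⁻¹ • y := by
      refine fix_between hT hact (a := c⁻¹ • x) (b := y) ?_ hs.1 hs.2
      unfold P
      have e1 : D T (c⁻¹ • y) (c⁻¹ • x) = D T x y := by rw [D_smul hT hact, D_comm]
      have e2 : D T (c⁻¹ • y) y = D T y (c • y) := by
        rw [← D_smul hT hact c (c⁻¹ • y), smul_inv_smul]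
      have e3 : D T (c⁻¹ • x) y = D T x (c • y) := by
        rw [← D_smul hT hact c (c⁻¹ • x), smul_inv_smul]
      omega
    rw [inv_inv]
    exact ⟨by rw [mul_smul, mul_smul, hs.1, smul_inv_smul],
      by rw [mul_smul, mul_smul, h1, smul_inv_smul]⟩

lemma bd_pow [ProperSpace X] [IsIsometricSMul G X] {K : Subgroup G} {B : Set X} (hB : CC K B)
    {g : G} (hg : Bd B g) (n : ℕ) : Bd B (g ^ n) := by
  induction n with
  | zero => rw [pow_zero]; exact Bd.of_mem hB K.one_mem
  | succ n ih => rw [pow_succ]; exact ih.mul hB hg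

include hT hact in
/-- no element turns the segment around on the left -/
lemma bd_end (hG : Geo X G) {x y : V} (hxy : x ≠ y) {B : Set X} (hB : CC (St G x y) B)
    (hst : Stable G T x y) {t : G} (ht : Sh T x y t) (hno : ∀ q : G, ¬ Fc T y x q) (g : G) :
    Bd B g := by
  have := hG.isom
  have := hG.proper
  obtain ⟨t1, t2⟩ := bd_sh hT hact hG hB hst ht
  have b3 : ∀ d : G, Fc T x y d → Bd B d := by
    intro d _
    obtain ⟨n, hn⟩ : ∃ n : ℕ, D T y (d • y) ≤ n ∧ D T y (d • t ^ 2 • x) ≤ n := by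
      refine ⟨(max (D T y (d • y)) (D T y (d • t ^ 2 • x))).toNat, ?_⟩
      have h1 := le_max_left (D T y (d • y)) (D T y (d • t ^ 2 • x))
      have h2 := le_max_right (D T y (d • y)) (D T y (d • t ^ 2 • x))
      have h3 := Int.self_le_toNat (max (D T y (d • y)) (D T y (d • t ^ 2 • x)))
      omega
    have key : ∀ w : V, D T y w ≤ n →
        ¬ D T w (t ^ (n + 1) • x) = D T w (t ^ (n + 1) • y) + D T x y := by
      intro w hw h
      have := far_aux hT hact hxy ht h
      omega
    have hd : ∀ u v : V, D T u (d⁻¹ • v) = D T (d • u) v := by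
      intro u v
      rw [← D_smul hT hact d u, smul_inv_smul]
    rcases four_cases hT hact hxy ht (t⁻¹ * d⁻¹ * t ^ (n + 2)) with h | h | h | h
    · have e : t * (t⁻¹ * d⁻¹ * t ^ (n + 2)) * t = d⁻¹ * t ^ (n + 3) := by
        rw [pow_succ t (n + 2)]; group
      rw [e] at h
      obtain ⟨-, b2⟩ := bd_sh hT hact hG hB hst h
      have h1 := (bd_pow hB t1 (n + 3)).mul hB b2
      have e2 : t ^ (n + 3) * (d⁻¹ * t ^ (n + 3))⁻¹ = d := by group
      rwa [e2] at h1
    · exfalso
      have e : t * (t⁻¹ * d⁻¹ * t ^ (n + 2)) * t⁻¹ = d⁻¹ * t ^ (n + 1) := by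
        rw [pow_succ t (n + 1)]; group
      rw [e] at h
      obtain ⟨f1, f2, f3⟩ := h.vals hT hact
      refine key (d • y) hn.1 ?_
      rw [mul_smul, hd] at f3
      rw [mul_smul] at f3
      rw [hd] at f3
      omega
    · exact absurd h (hno _)
    · exfalso
      have e : t⁻¹ * (t⁻¹ * d⁻¹ * t ^ (n + 2)) * t⁻¹ = t⁻¹ ^ 2 * (d⁻¹ * t ^ (n + 1)) := by
        rw [pow_succ t (n + 1)]; group
      rw [e] at h
      obtain ⟨f1, f2, f3⟩ := h.vals hT hact
      refine key (d • t ^ 2 • x) hn.2 ?_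
      have e3 : ∀ u v : V, D T u ((t⁻¹ ^ 2 * (d⁻¹ * t ^ (n + 1))) • v) =
          D T (d • t ^ 2 • u) (t ^ (n + 1) • v) := by
        intro u v
        rw [mul_smul, ← D_smul hT hact (t ^ 2) u, inv_pow, smul_inv_smul, mul_smul, hd]
      rw [e3, e3] at f3
      rw [D_comm y x] at f3
      omega
  rcases four_cases hT hact hxy ht g with h | h | h | h
  · have h1 := (t2.mul hB (bd_sh hT hact hG hB hst h).1).mul hB t2
    have e : t⁻¹ * (t * g * t) * t⁻¹ = g := by group
    rwa [e] at h1
  · have h1 := (t2.mul hB (b3 _ h)).mul hB t1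
    have e : t⁻¹ * (t * g * t⁻¹) * t = g := by group
    rwa [e] at h1
  · exact absurd h (hno _)
  · have h0 := (bd_sh hT hact hG hB hst ((sh_inv hT hact).2 h)).2
    rw [inv_inv] at h0
    have h1 := (t1.mul hB h0).mul hB t1
    have e : t * (t⁻¹ * g * t⁻¹) * t = g := by group
    rwa [e] at h1

include hT hact in
lemma stable_symm {x y : V} (hst : Stable G T x y) : Stable G T y x := by
  intro c hc
  have h1 := hst c⁻¹ ((sh_inv hT hact).2 hc)
  rw [inv_inv] at h1
  have e1 : ∀ a b : V, St G a b = St G b a := fun a b => inf_comm _ _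
  rw [e1 y (c • x), e1 (c⁻¹ • y) x, e1 y x]
  exact ⟨h1.2, h1.1⟩

include hT hact in
/-- a convex set on which the stabiliser of a stable segment acts is near all its translates -/
theorem bd_all' (hG : Geo X G) {x y : V} (hxy : x ≠ y) {B : Set X} (hB : CC (St G x y) B)
    (hst : Stable G T x y) {t : G} (ht : Sh T x y t) (g : G) : Bd B g := by
  by_cases hq : ∃ q : G, Fc T y x q
  · by_cases hp : ∃ p : G, Fc T x y p
    · obtain ⟨p, hp⟩ := hp
      obtain ⟨q, hq⟩ := hq
      exact bd_all hT hact hG hxy hB hst hp hq g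
    · push Not at hp
      have e1 : St G x y = St G y x := inf_comm _ _
      rw [e1] at hB
      exact bd_end hT hact hG hxy.symm hB (stable_symm hT hact hst)
        ((sh_inv hT hact).1 (by rw [inv_inv]; exact ht)) hp g
  · push Not at hq
    exact bd_end hT hact hG hxy hB hst ht hq g

include hT hact in
/-- **Stable segments.** -/
theorem core' (hG : Geo X G) (hGC : GC X) {x y : V} (hxy : x ≠ y) {B : Set X}
    (hB : CC (St G x y) B) (hst : Stable G T x y) {t : G} (ht : Sh T x y t) :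
    (∃ g : G, RankOne X g) ∨ Splits B (St G x y) := by
  have := hG.isom
  obtain ⟨o, ho⟩ := hB.ne
  by_cases hfin : (St G x y : Set G).Finite
  · exact Or.inl ⟨_, rank_one_of_fin hT hact hG hxy ht hfin o⟩
  · right
    obtain ⟨B₀, hsub, h₀, h | h⟩ := split_of_bd hG hGC hB
      (bd_all' hT hact hG hxy hB hst ht)
    · exact absurd h (not_univ hT hact hG hxy ht h₀)
    · refine ⟨B₀, hsub, h₀, ?_, h⟩
      rw [Set.nontrivial_coe_sort]
      by_contra hcon
      rw [Set.not_nontrivial_iff] at hcon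
      obtain ⟨z, hz⟩ := h₀.ne
      refine hfin ((finite_short hG z 0).subset fun s hs => ?_)
      have h1 : s • z = z := hcon (h₀.inv s hs z hz) hz
      show dist z (s • z) ≤ 0
      rw [h1, dist_self]

include hT hact in
/-- **The chain condition.** -/
theorem chain' (hG : Geo X G) (hGC : GC X) {u v : V} (huv : u ≠ v) {B : Set X}
    (hB : CC (St G u v) B) (hch : ChainCond V (St G u v)) {t : G} (ht : Sh T u v t) :
    (∃ g : G, RankOne X g) ∨ ∃ h : G, Sh T u v h ∧ Splits B (St G u (h • v)) := by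
  obtain ⟨h, hh, hst⟩ := exists_stable hT hact ht hch
  obtain ⟨B', hsub, hB'⟩ := cc_inter hG hB h (st_sh hT hact hh)
  have hne : u ≠ h • v := by
    intro he
    obtain ⟨h1, h2, h3⟩ := hh.vals hT hact
    rw [← he, D_self] at h1
    have := D_pos hT huv
    have := D_nonneg (T := T) v (h • u)
    omega
  rcases core' hT hact hG hGC hne hB' hst (sh_two hT hact huv hh) with h1 | ⟨B₀, h2, h3⟩
  · exact Or.inl h1
  · exact Or.inr ⟨h, hh, B₀, h2.trans hsub, h3⟩

include hT hact in
/-- **Virtually abelian stabilisers.** -/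
theorem abelian' (hG : Geo X G) (hGC : GC X) (o : X) {u v : V} (huv : u ≠ v) {A' : Subgroup G}
    (hle : A' ≤ St G u v) (hfin : A'.relIndex (St G u v) ≠ 0) (hfg : A'.FG)
    (hcomm : ∀ a ∈ A', ∀ b ∈ A', a * b = b * a) {t : G} (ht : Sh T u v t) :
    (∃ g : G, RankOne X g) ∨
      ∃ (B : Set X) (h : G), Sh T u v h ∧ Splits B (St G u (h • v)) := by
  obtain ⟨B', hB'⟩ := cc_abelian hG A' hfg hcomm o
  obtain ⟨B, hB⟩ := cc_fin hG hle hfin hB'
  rcases chain' hT hact hG hGC huv hB (fun K h0 hK _ => chain_ab hfin hfg hcomm K h0 hK) ht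
    with h | ⟨h, h1, h2⟩
  · exact Or.inl h
  · exact Or.inr ⟨B, h, h1, h2⟩

end Pool.Agent.V7H57.RK
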