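import Pool.Agent.T6.H46.RC.Fin

/-!
# Positions of segments in a tree

The segment from `x` to `y` and its translates.
-/

set_option autoImplicit false

open Pool.Agent.T6.H67.TA Pool.Agent.T6.H46.RR Pool.Agent.T6.H46.RC

namespace Pool.Agent.V7H57.RK

variable {V : Type} {T : SimpleGraph V} (hT : T.IsTree)

include hT in
/-- gluing of geodesics along a nontrivial segment -/
lemma glue {w c d z : V} (h1 : D T w d = D T w c + D T c d) (h2 : D T c z = D T c d + D T d z)
    (hcd : c ≠ d) : D T w z = D T w c + D T c d + D T d z := by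
  have h3 := P_min hT c w d z
  have h4 := P_nonneg hT c w z
  have h5 := D_pos hT hcd
  have e1 : P T c w d = 0 := by unfold P; rw [D_comm c w]; omega
  have e2 : P T c z d = 2 * D T c d := by unfold P; rw [D_comm z d]; omega
  rw [e1, e2] at h3
  have h6 : P T c w z = 0 := by
    rcases min_le_iff.1 h3 with h | h <;> omega
  unfold P at h6
  rw [D_comm c w] at h6
  omega

include hT in
/-- geodesics which cross two edges -/
lemma cross2 {a b a' b' w z : V} (hab : T.Adj a b) (hab' : T.Adj a' b')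
    (h1 : D T w b = D T w a + 1) (h2 : D T a' z = D T b' z + 1)
    (h : (a' = a ∧ b' = b) ∨ D T a b' = D T b a' + 2) :
    D T w z = D T w a + D T a b' + D T b' z := by
  rcases h with ⟨rfl, rfl⟩ | h
  · have := sep_edge hT (adj_D hab) h1 h2
    rw [adj_D hab]; exact this
  · have e1 := adj_pm hT hab a'
    have e2 := adj_pm hT hab b'
    have e3 := adj_pm hT hab' a
    have e4 := adj_pm hT hab' b
    rw [D_comm b' a, D_comm a' a] at e3
    rw [D_comm b' b, D_comm a' b] at e4
    have k1 : D T w a' = D T w a + 1 + D T b a' := sep_edge hT (adj_D hab) h1 (by omega)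
    have k2 : D T w b' = D T w a + 1 + D T b b' := sep_edge hT (adj_D hab) h1 (by omega)
    have k3 := sep_edge hT (adj_D hab') (w := w) (u := z) (by omega) h2
    omega

variable {G : Type} [Group G] [MulAction G V]
  (hact : ∀ (g : G) (u v : V), T.Adj u v → T.Adj (g • u) (g • v))

/-- path `x, …, y, …, c x, …, c y` -/
def Sh (T : SimpleGraph V) (x y : V) (c : G) : Prop := D T x (c • y) = D T y (c • x) + 2 * D T x y

/-- path `x, …, y, …, p y, …, p x` -/
def Fc (T : SimpleGraph V) (x y : V) (p : G) : Prop := D T x (p • x) = D T y (p • y) + 2 * D T x y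

include hT hact in
lemma Sh.vals {x y : V} {c : G} (h : Sh T x y c) :
    D T x (c • y) = D T x y + D T y (c • x) + D T x y ∧ D T x (c • x) = D T x y + D T y (c • x) ∧
      D T y (c • y) = D T y (c • x) + D T x y := by
  unfold Sh at h
  have h1 := D_tri hT x y (c • x)
  have h2 := D_tri hT y (c • x) (c • y)
  have h3 := D_tri hT x (c • x) (c • y)
  have h4 := D_tri hT x y (c • y)
  have h5 := D_smul hT hact c x y
  omega

include hT hact in
lemma Fc.vals {x y : V} {p : G} (h : Fc T x y p) :
    D T x (p • x) = D T x y + D T y (p • y) + D T x y ∧ D T x (p • y) = D T x y + D T y (p • y) ∧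
      D T y (p • x) = D T y (p • y) + D T x y := by
  unfold Fc at h
  have h1 := D_tri hT x y (p • y)
  have h2 := D_tri hT y (p • y) (p • x)
  have h3 := D_tri hT x (p • y) (p • x)
  have h4 := D_tri hT x y (p • x)
  have h5 := D_smul hT hact p y x
  rw [D_comm y x] at h5
  omega

include hT hact in
lemma sh_inv {x y : V} {c : G} : Sh T x y c⁻¹ ↔ Sh T y x c := by
  unfold Sh
  rw [D_inv' hT hact, D_inv' hT hact, D_comm y x]

include hT hact in
/-- facing after back to back -/
lemma fc_mul {x y : V} (hxy : x ≠ y) {p q : G} (hp : Fc T x y p) (hq : Fc T y x q) :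
    Sh T x y (p * q) := by
  obtain ⟨p1, p2, p3⟩ := hp.vals hT hact
  obtain ⟨q1, q2, q3⟩ := hq.vals hT hact
  have s : ∀ u v : V, D T (p • u) ((p * q) • v) = D T u (q • v) := by
    intro u v; rw [mul_smul, D_smul hT hact]
  have s' : D T (p • y) (p • x) = D T y x := D_smul hT hact p y x
  rw [D_comm y x] at q1 q2 q3 s'
  have hne : p • y ≠ p • x := fun h => hxy (smul_left_cancel p h).symm
  have e1 := glue hT (w := x) (c := p • y) (d := p • x) (z := (p * q) • y) (by omega)
    (by rw [s, s]; omega) hne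
  have e2 := glue hT (w := y) (c := p • y) (d := p • x) (z := (p * q) • x) (by omega)
    (by rw [s, s]; omega) hne
  rw [s] at e1 e2
  unfold Sh
  omega

include hT hact in
/-- the four relative positions of two translates of a segment which are moved apart -/
lemma four_cases {x y : V} (hxy : x ≠ y) {t : G} (ht : Sh T x y t) (g : G) :
    Sh T x y (t * g * t) ∨ Fc T x y (t * g * t⁻¹) ∨ Fc T y x (t⁻¹ * g * t) ∨
      Sh T y x (t⁻¹ * g * t⁻¹) := by
  obtain ⟨t1, t2, t3⟩ := ht.vals hT hact
  obtain ⟨b, hb, hby⟩ := exists_closer hT hxy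
  have hl := D_pos hT hxy
  have hbb := adj_D hb
  -- the points before
  have u1 : D T (t⁻¹ • x) x = D T x (t • x) := by
    rw [← D_smul hT hact t (t⁻¹ • x) x, smul_inv_smul]
  have u2 : D T (t⁻¹ • y) x = D T y (t • x) := by
    rw [← D_smul hT hact t (t⁻¹ • y) x, smul_inv_smul]
  have u3 : D T (t⁻¹ • x) y = D T x (t • y) := by
    rw [← D_smul hT hact t (t⁻¹ • x) y, smul_inv_smul]
  have u4 : D T (t⁻¹ • y) y = D T y (t • y) := by
    rw [← D_smul hT hact t (t⁻¹ • y) y, smul_inv_smul]
  have w1 : D T (t⁻¹ • x) b = D T (t⁻¹ • x) x + 1 := by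
    have h1 := D_tri hT (t⁻¹ • x) b y
    have h2 := D_tri hT (t⁻¹ • x) x b
    omega
  have w2 : D T (t⁻¹ • y) b = D T (t⁻¹ • y) x + 1 := by
    have h1 := D_tri hT (t⁻¹ • y) b y
    have h2 := D_tri hT (t⁻¹ • y) x b
    omega
  -- the points after
  have z1 : D T x (t • x) = D T b (t • x) + 1 := by
    have h1 := D_tri hT b y (t • x)
    have h2 := D_tri hT x b (t • x)
    omega
  have z2 : D T x (t • y) = D T b (t • y) + 1 := by
    have h1 := D_tri hT b y (t • y)
    have h2 := D_tri hT x b (t • y)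
    omega
  have hg : ∀ u v : V, D T (g • u) (g • v) = D T u v := D_smul hT hact g
  have hgb : T.Adj (g • x) (g • b) := hact g x b hb
  -- distances in the form needed
  have k1 : ∀ u v : V, D T u ((t * g * t) • v) = D T (t⁻¹ • u) (g • t • v) := by
    intro u v
    rw [← D_smul hT hact t (t⁻¹ • u), smul_inv_smul, mul_smul, mul_smul]
  have k2 : ∀ u v : V, D T u ((t * g * t⁻¹) • v) = D T (t⁻¹ • u) (g • t⁻¹ • v) := by
    intro u v
    rw [← D_smul hT hact t (t⁻¹ • u), smul_inv_smul, mul_smul, mul_smul]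
  have k3 : ∀ u v : V, D T u ((t⁻¹ * g * t) • v) = D T (t • u) (g • t • v) := by
    intro u v
    rw [← D_smul hT hact t u, mul_smul, mul_smul, smul_inv_smul]
  have k4 : ∀ u v : V, D T u ((t⁻¹ * g * t⁻¹) • v) = D T (t • u) (g • t⁻¹ • v) := by
    intro u v
    rw [← D_smul hT hact t u, mul_smul, mul_smul, smul_inv_smul]
  have case1 : ((g • x = x ∧ g • b = b) ∨ D T x (g • b) = D T b (g • x) + 2) →
      Sh T x y (t * g * t) := by
    intro h
    have e1 := cross2 hT hb hgb (w := t⁻¹ • x) (z := g • t • y) w1 (by rw [hg, hg]; exact z2) h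
    have e2 := cross2 hT hb hgb (w := t⁻¹ • y) (z := g • t • x) w2 (by rw [hg, hg]; exact z1) h
    rw [hg] at e1 e2
    unfold Sh
    rw [k1, k1]
    omega
  have case2 : ((g • b = x ∧ g • x = b) ∨ D T x (g • x) = D T b (g • b) + 2) →
      Fc T x y (t * g * t⁻¹) := by
    intro h
    have e1 := cross2 hT hb hgb.symm (w := t⁻¹ • x) (z := g • t⁻¹ • x) w1
      (by rw [hg, hg, D_comm b, D_comm x]; exact w1) h
    have e2 := cross2 hT hb hgb.symm (w := t⁻¹ • y) (z := g • t⁻¹ • y) w2
      (by rw [hg, hg, D_comm b, D_comm x]; exact w2) h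
    rw [hg, D_comm x] at e1 e2
    unfold Fc
    rw [k2, k2]
    rw [D_comm x] at e1 e2
    rw [D_comm (t⁻¹ • x) x, D_comm (t⁻¹ • y) x] at *
    omega
  have case3 : D T b (g • b) = D T x (g • x) + 2 → Fc T y x (t⁻¹ * g * t) := by
    intro h
    have e1 := cross2 hT hb.symm hgb (w := t • y) (z := g • t • y) (by rw [D_comm _ x, D_comm _ b]; exact z2)
      (by rw [hg, hg]; exact z2) (Or.inr h)
    have e2 := cross2 hT hb.symm hgb (w := t • x) (z := g • t • x) (by rw [D_comm _ x, D_comm _ b]; exact z1)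
      (by rw [hg, hg]; exact z1) (Or.inr h)
    rw [hg] at e1 e2
    unfold Fc
    rw [k3, k3, D_comm y x]
    rw [D_comm (t • y) b] at e1
    rw [D_comm (t • x) b] at e2
    omega
  have case4 : D T b (g • x) = D T x (g • b) + 2 → Sh T y x (t⁻¹ * g * t⁻¹) := by
    intro h
    have e1 := cross2 hT hb.symm hgb.symm (w := t • y) (z := g • t⁻¹ • x)
      (by rw [D_comm _ x, D_comm _ b]; exact z2)
      (by rw [hg, hg, D_comm b, D_comm x]; exact w1) (Or.inr h)
    have e2 := cross2 hT hb.symm hgb.symm (w := t • x) (z := g • t⁻¹ • y)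
      (by rw [D_comm _ x, D_comm _ b]; exact z1)
      (by rw [hg, hg, D_comm b, D_comm x]; exact w2) (Or.inr h)
    rw [hg] at e1 e2
    unfold Sh
    rw [k4, k4, D_comm y x]
    rw [D_comm (t • y) b, D_comm x (t⁻¹ • x)] at e1
    rw [D_comm (t • x) b, D_comm x (t⁻¹ • y)] at e2
    omega
  rcases edge_cases hT hb hgb with h | h | h | h | h | h
  · exact Or.inl (case1 (Or.inl h))
  · exact Or.inr (Or.inl (case2 (Or.inl ⟨h.2, h.1⟩)))
  · exact Or.inl (case1 (Or.inr h))
  · exact Or.inr (Or.inr (Or.inr (case4 h)))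
  · exact Or.inr (Or.inl (case2 (Or.inr h)))
  · exact Or.inr (Or.inr (Or.inl (case3 h)))

end Pool.Agent.V7H57.RK
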