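import Pool.Agent.V7H57.RK.End

/-!
# Rank rigidity for CAT(0) groups which split over a virtually abelian subgroup

(A special case of the hand-in `RankRigidityHalfSpacesH57` of the same problem, with an independent
proof; kept here as a helper file.)

Let `G` act geometrically on a geodesically complete proper CAT(0) space `X`, and let `G` act on a
tree `T`.  Let `t` in `G` be hyperbolic on `T` and let `[u, v]` be a segment of the axis of `t`
(with `u ≠ v`) which is moved off itself by `t`, for instance an edge of the axis.  Let `A` be the
pointwise stabiliser of `[u, v]`.  Theorem: if `A` is virtually abelian (and finitely generated,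
which is automatic for subgroups of `G`), then `G` contains a rank one isometry of `X`, or `X` is a
product of two spaces with more than one point.  So rank rigidity holds for all geometric actions
of groups which split as a nontrivial amalgam or HNN extension over a virtually abelian group.

More generally it is enough that `A` is convex cocompact and satisfies the following chain
condition: in a descending sequence of subgroups of `A`, each of which is the stabiliser of a pair
of vertices, some member has finite index in the preceding one.  This holds for instance if `T` is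
locally finite, or if `A` is virtually abelian.

Idea of the proof.
(1) Flat torus theorem: a finitely generated abelian subgroup acts cocompactly on a closed convex
set.  This set is constructed one generator `b` after the other, as the union of the axes of `b`
through the points of the set of the previous step; all its points are moved minimally by all
elements of the group.  A sum of distances gives the same for finite extensions.
(2) By the chain condition there is a longer segment `[x, y] = [u, h v]` such that the stabilisers
of the still longer segments `[x, c y]` and `[c⁻¹ x, y]` (for all `c` which shift `[x, y]` along an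
axis) have finite index in the stabiliser `L` of `[x, y]`.  Then `L` acts cocompactly on a closed
convex set `B`, and `B` is near all its translates `cB`, `c⁻¹B`.
(3) Every `g` in `G` is a product of such shifts, their inverses and a bounded number of elements
which turn `[x, y]` around.  If `G` fixes an end of `T` then the elements which turn the segment
around are also products of shifts.  So `B` is near all its translates.
(4) If `L` is finite then the shifts are rank one isometries.  If `L` is infinite then the
convex sets which are parallel to a minimal closed convex `L`-invariant subset `B₀` of `B` fill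
`X`, and `X` is the product of `B₀` and another space, which is not a point because `L` is not
cocompact on `X`.
-/

set_option autoImplicit false

namespace Pool.Agent.V7H57.RK.TreeSegments

open Set Metric

/-- The inequality of Bruhat and Tits: a complete metric space is CAT(0) if and only if any two
points `p`, `q` have a midpoint `m` such that
`d(x, m)² ≤ (d(x, p)² + d(x, q)²) / 2 - d(p, q)² / 4` for all `x`. -/
def BruhatTits (X : Type) [MetricSpace X] : Prop := ∀ p q : X, ∃ m : X, ∀ x : X,
  dist x m ^ 2 ≤ (dist x p ^ 2 + dist x q ^ 2) / 2 - dist p q ^ 2 / 4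

/-- Every geodesic segment extends to a geodesic line: for `p ≠ q` there is a line through `p` and
`q` (in a CAT(0) space it contains the unique geodesic segment from `p` to `q`). -/
def GeodesicallyComplete (X : Type) [MetricSpace X] : Prop :=
  ∀ p q : X, p ≠ q → ∃ c : ℝ → X, Isometry c ∧ c 0 = p ∧ c (dist p q) = q

/-- The line `c` bounds a flat half-plane: there is an isometric embedding `H` of the Euclidean
half-plane `ℝ × [0, ∞)` in `X` which extends `c`. -/
def BoundsHalfPlane {X : Type} [MetricSpace X] (c : ℝ → X) : Prop :=
  ∃ H : ℝ × NNReal → X,
    (∀ p q : ℝ × NNReal, dist (H p) (H q) ^ 2 = (p.1 - q.1) ^ 2 + ((p.2 : ℝ) - q.2) ^ 2) ∧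
    ∀ t : ℝ, H (t, 0) = c t

/-- `g` is a rank one isometry of `X`: it translates a geodesic line `c` by `τ > 0`, and this axis
does not bound a flat half-plane. -/
def IsRankOne (X : Type) [MetricSpace X] {G : Type} [Group G] [MulAction G X] (g : G) : Prop :=
  ∃ (τ : ℝ) (c : ℝ → X), 0 < τ ∧ Isometry c ∧ (∀ t, g • c t = c (t + τ)) ∧ ¬ BoundsHalfPlane c

/-- `B` is a nonempty closed convex subset of `X`, preserved by the subgroup `K`, which acts
cocompactly on `B`. -/
def ConvexCocompact {X : Type} [MetricSpace X] {G : Type} [Group G] [MulAction G X]
    (K : Subgroup G) (B : Set X) : Prop :=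
  B.Nonempty ∧ IsClosed B ∧
    (∀ p ∈ B, ∀ q ∈ B, ∀ m, dist p m + dist m q = dist p q → m ∈ B) ∧
    (∀ g ∈ K, ∀ x ∈ B, g • x ∈ B) ∧
    ∃ C : Set X, IsCompact C ∧ ∀ x ∈ B, ∃ g ∈ K, g • x ∈ C

/-- The subgroup of the elements which fix `u` and `v`, that is, the pointwise stabiliser of the
segment `[u, v]` of the tree. -/
def PairStabilizer (G : Type) [Group G] {V : Type} [MulAction G V] (u v : V) : Subgroup G :=
  MulAction.stabilizer G u ⊓ MulAction.stabilizer G v

/-- `A` has a finitely generated abelian subgroup of finite index. -/
def VirtuallyAbelian {G : Type} [Group G] (A : Subgroup G) : Prop :=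
  ∃ A' : Subgroup G, A' ≤ A ∧ A'.relIndex A ≠ 0 ∧ A'.FG ∧ ∀ a ∈ A', ∀ b ∈ A', a * b = b * a

/-- The chain condition for the stabilisers of pairs of vertices: if `K₀ ≥ K₁ ≥ K₂ ≥ ...` are
subgroups of `A`, each of which is the stabiliser of a pair of vertices, then some `Kₙ₊₁` has finite
index in `Kₙ`. -/
def ChainCondition (V : Type) {G : Type} [Group G] [MulAction G V] (A : Subgroup G) : Prop :=
  ∀ K : ℕ → Subgroup G, K 0 ≤ A → (∀ n, K (n + 1) ≤ K n) →
    (∀ n, ∃ z w : V, K n = PairStabilizer G z w) → ∃ n, (K (n + 1)).relIndex (K n) ≠ 0

open Pool.Agent.T6.H46.RC Pool.Agent.T6.H46.RR Pool.Agent.T6.H67.TA Pool.Agent.V7H57.RK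

/-- Let `G` act geometrically (by isometries, properly discontinuously, cocompactly) on a proper
geodesically complete CAT(0) space `X`, and let `G` act on a tree `T` by graph automorphisms.  Let
`u ≠ v` be vertices and let `t` in `G` be such that the segment from `u` to `t v` starts with the
segment `[u, v]` and ends with the segment `[t u, t v]`, and these two segments have no common edge
(so `t` is hyperbolic on `T` and `u`, `v` are on its axis).  Suppose that the pointwise stabiliser
of `{u, v}`
* is virtually abelian and finitely generated, or
* is convex cocompact in `X` and satisfies the chain condition.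
Then `G` contains a rank one isometry of `X`, or `X` is isometric to a product `Z × B₀`, where `Z`
and `B₀` have more than one point and `B₀` is a closed convex subset of `X`, on which the
pointwise stabiliser of `{u, h v}` acts cocompactly, for some `h` in `G` (and `h v ≠ u`). -/
theorem result {X : Type} [MetricSpace X] [ProperSpace X] [Nonempty X] (hX : BruhatTits X)
    (hc : GeodesicallyComplete X)
    {G : Type} [Group G] [MulAction G X] [IsIsometricSMul G X] [ProperlyDiscontinuousSMul G X]
    (hcc : ∃ C : Set X, IsCompact C ∧ ∀ x : X, ∃ g : G, g • x ∈ C)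
    {V : Type} {T : SimpleGraph V} (hT : T.IsTree) [MulAction G V]
    (hact : ∀ (g : G) (u v : V), T.Adj u v → T.Adj (g • u) (g • v))
    {u v : V} (huv : u ≠ v) {t : G}
    (ht : T.dist u (t • v) = T.dist v (t • u) + 2 * T.dist u v)
    (hA : VirtuallyAbelian (PairStabilizer G u v) ∨
      ((∃ B : Set X, ConvexCocompact (PairStabilizer G u v) B) ∧
        ChainCondition V (PairStabilizer G u v))) :
    (∃ g : G, IsRankOne X g) ∨
    ∃ (h : G) (B₀ : Set X), h • v ≠ u ∧ ConvexCocompact (PairStabilizer G u (h • v)) B₀ ∧
      Nontrivial B₀ ∧
      ∃ (Z : Type) (_ : MetricSpace Z) (_ : Nontrivial Z) (e : X ≃ Z × B₀), ∀ x x' : X,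
        dist x x' ^ 2 = dist (e x).1 (e x').1 ^ 2 + dist (e x).2 (e x').2 ^ 2 := by
  have hG : Pool.Agent.Y34.HB.Geo X G := ⟨inferInstance, inferInstance, inferInstance, hcc, hX⟩
  have ht' : Sh T u v t := by unfold Sh D; exact_mod_cast ht
  have key : ((∃ g : G, Pool.Agent.Y34.EL.RankOne X g) ∨
      ∃ (B : Set X) (h : G), Sh T u v h ∧ Splits B (St G u (h • v))) := by
    rcases hA with ⟨A', h1, h2, h3, h4⟩ | ⟨⟨B, b1, b2, b3, b4, b5⟩, hch⟩
    · exact abelian' hT hact hG hc (Classical.arbitrary X) huv h1 h2 h3 h4 ht'
    · have hB : CC (St G u v) B := ⟨b1, b2, b3, b4, b5⟩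
      rcases chain' hT hact hG hc huv hB hch ht' with h | ⟨h, h1, h2⟩
      · exact Or.inl h
      · exact Or.inr ⟨B, h, h1, h2⟩
  rcases key with ⟨g, τ', c', hτ', ⟨hc1, hc2⟩, he⟩ | ⟨B, h, hh, B₀, -, h₀, hn, hsplit⟩
  · left
    refine ⟨g, τ', c', hτ', hc1, hc2, ?_⟩
    rintro ⟨H, hH1, hH2⟩
    have : H ∈ Pool.Agent.Y34.HB.HP c' := ⟨hH1, hH2⟩
    rw [he] at this
    exact this
  · right
    refine ⟨h, B₀, ?_, ⟨h₀.ne, h₀.closed, h₀.conv, h₀.inv, h₀.cc⟩, hn, hsplit⟩
    intro he
    obtain ⟨h1, h2, h3⟩ := hh.vals hT hact
    rw [he, D_self] at h1
    have := D_pos hT huv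
    have := D_nonneg (T := T) v (h • u)
    omega

end Pool.Agent.V7H57.RK.TreeSegments
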